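import Mathlib

/-!
Counting automorphisms of a finite vector space with prescribed values.
-/

namespace Pool.Agent.P.MP_c21a16_pr

open Module Finset

variable {K V : Type*} [Field K] [Fintype K] [AddCommGroup V] [Module K V] [Fintype V]
  [Fintype (V ≃ₗ[K] V)]

omit [Fintype K] [Fintype V] [Fintype (V ≃ₗ[K] V)] in
lemma exists_equiv_of_li {t : ℕ} {p r : Fin t → V} (hp : LinearIndependent K p)
    (hr : LinearIndependent K r) : ∃ g : V ≃ₗ[K] V, ∀ i, g (p i) = r i := by
  have : FiniteDimensional K (Submodule.span K (Set.range p)) :=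
    FiniteDimensional.span_of_finite K (Set.finite_range p)
  obtain ⟨g, hg⟩ := Submodule.exists_linearEquiv_restrict_eq
    ((Basis.span hp).equiv (Basis.span hr) (Equiv.refl _))
  refine ⟨g, fun i => ?_⟩
  have := hg (Basis.span hp i)
  rw [Basis.equiv_apply] at this
  simpa using this.symm

omit [Fintype K] in
open Classical in
lemma fiber_mul_le {t : ℕ} (p r : Fin t → V) (hp : LinearIndependent K p) :
    #{g : V ≃ₗ[K] V | ∀ i, g (p i) = r i} * #{s : Fin t → V | LinearIndependent K s}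
      ≤ Fintype.card (V ≃ₗ[K] V) := by
  by_cases hne : (univ.filter fun g : V ≃ₗ[K] V => ∀ i, g (p i) = r i) = ∅
  · simp [hne]
  obtain ⟨g₀, hg₀⟩ := Finset.nonempty_iff_ne_empty.2 hne
  have hg₀' : ∀ i, g₀ (p i) = r i := by simpa using hg₀
  have hr : LinearIndependent K r := by
    have := hp.map' (g₀ : V →ₗ[K] V) g₀.ker
    have e : (⇑(g₀ : V →ₗ[K] V) ∘ p) = r := by
      ext i
      simp [hg₀']
    rwa [e] at this
  have hch : ∀ s : Fin t → V, ∃ h : V ≃ₗ[K] V, LinearIndependent K s → ∀ i, h (r i) = s i := by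
    intro s
    by_cases hs : LinearIndependent K s
    · obtain ⟨h, hh⟩ := exists_equiv_of_li hr hs
      exact ⟨h, fun _ => hh⟩
    · exact ⟨1, fun h => absurd h hs⟩
  choose h hh using hch
  rw [← Finset.card_product, ← Finset.card_univ]
  refine Finset.card_le_card_of_injOn (fun z => h z.2 * z.1) (fun _ _ => by simp) ?_
  rintro ⟨g, s⟩ hz ⟨g', s'⟩ hz' he
  simp only [coe_product, coe_filter, mem_univ, true_and, Set.mem_prod, Set.mem_ofPred_eq] at hz hz'
  have hs : s = s' := by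
    ext i
    have := congrArg (fun e : V ≃ₗ[K] V => e (p i)) he
    simpa [hz.1, hz'.1, hh s hz.2, hh s' hz'.2] using this
  subst hs
  simpa using he

lemma prod_lower (q Q : ℝ) (hq : 2 ≤ q) (t : ℕ) (ht : q ^ t ≤ Q) :
    Q ^ t * (1 - q ^ t / Q) ≤ ∏ i : Fin t, (Q - q ^ (i : ℕ)) := by
  have hQ : 0 < Q := lt_of_lt_of_le (by positivity) ht
  induction t with
  | zero =>
    simp only [pow_zero, one_mul, univ_eq_empty, prod_empty]
    have : 0 < 1 / Q := by positivity
    linarith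
  | succ t ih =>
    have h1 : 0 < q ^ t := by positivity
    have h2 : 2 * q ^ t ≤ q ^ (t + 1) := by rw [pow_succ]; nlinarith
    have h3 := ih (by linarith)
    rw [Fin.prod_univ_castSucc]
    simp only [Fin.val_castSucc, Fin.val_last]
    have h4 : Q ^ t * (1 - q ^ t / Q) * (Q - q ^ t) ≤ (∏ i : Fin t, (Q - q ^ (i : ℕ))) * (Q - q ^ t) :=
      mul_le_mul_of_nonneg_right h3 (by linarith)
    refine le_trans ?_ h4
    have h5 : Q ^ t * (1 - q ^ t / Q) * (Q - q ^ t) = Q ^ (t + 1) * (1 - q ^ t / Q) ^ 2 := by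
      field_simp
      ring
    rw [h5]
    apply mul_le_mul_of_nonneg_left _ (by positivity)
    have h6 : 2 * (q ^ t / Q) ≤ q ^ (t + 1) / Q := by
      rw [← mul_div_assoc]; gcongr
    nlinarith [sq_nonneg (q ^ t / Q)]

omit [Fintype (V ≃ₗ[K] V)] in
open Classical in
lemma card_li_lower {t : ℕ} (ht : Fintype.card K ^ t ≤ Fintype.card V) :
    (Fintype.card V : ℝ) ^ t * (1 - (Fintype.card K : ℝ) ^ t / Fintype.card V)
      ≤ #{s : Fin t → V | LinearIndependent K s} := by
  have hV : Fintype.card V = Fintype.card K ^ finrank K V := Module.card_eq_pow_finrank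
  have hq : 2 ≤ Fintype.card K := Fintype.one_lt_card
  have htn : t ≤ finrank K V := by
    rw [hV] at ht
    exact (Nat.pow_le_pow_iff_right hq).1 ht
  have h1 := card_linearIndependent (K := K) (V := V) htn
  rw [Nat.card_eq_fintype_card, Fintype.card_subtype] at h1
  rw [h1, ← hV, Nat.cast_prod]
  refine le_trans (prod_lower _ _ (by exact_mod_cast hq) t (by exact_mod_cast ht)) (le_of_eq ?_)
  refine Finset.prod_congr rfl fun i _ => ?_
  rw [Nat.cast_sub]
  · simp
  · exact le_trans (Nat.pow_le_pow_right (by omega) i.2.le) ht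

open Classical in
lemma fiber_le {t : ℕ} (ht : 2 * Fintype.card K ^ t ≤ Fintype.card V) (p r : Fin t → V)
    (hp : LinearIndependent K p) :
    (#{g : V ≃ₗ[K] V | ∀ i, g (p i) = r i} : ℝ) ≤ Fintype.card (V ≃ₗ[K] V) *
      ((1 + 2 * (Fintype.card K : ℝ) ^ t / Fintype.card V) / (Fintype.card V : ℝ) ^ t) := by
  have h1 := card_li_lower (K := K) (V := V) (t := t) (by omega)
  have h2 : (#{g : V ≃ₗ[K] V | ∀ i, g (p i) = r i} : ℝ) * #{s : Fin t → V | LinearIndependent K s}
      ≤ Fintype.card (V ≃ₗ[K] V) := by exact_mod_cast fiber_mul_le p r hp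
  have hQ : (0 : ℝ) < Fintype.card V := by exact_mod_cast Fintype.card_pos
  have ht' : 2 * (Fintype.card K : ℝ) ^ t ≤ Fintype.card V := by exact_mod_cast ht
  set Q : ℝ := (Fintype.card V : ℝ)
  set x : ℝ := (Fintype.card K : ℝ) ^ t / Q with hx
  have hx0 : 0 ≤ x := by positivity
  have hx1 : x ≤ 1 / 2 := by rw [hx, div_le_iff₀ hQ]; linarith
  have h3 := mul_le_mul_of_nonneg_left h1
    (Nat.cast_nonneg (α := ℝ) #{g : V ≃ₗ[K] V | ∀ i, g (p i) = r i})
  set F : ℝ := (#{g : V ≃ₗ[K] V | ∀ i, g (p i) = r i} : ℝ)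
  have hF : 0 ≤ F := Nat.cast_nonneg _
  rw [mul_div_assoc 2, ← hx, ← mul_div_assoc, le_div_iff₀ (by positivity)]
  have h4 : F * (Q ^ t * (1 - x)) ≤ Fintype.card (V ≃ₗ[K] V) := h3.trans h2
  have h5 : F * Q ^ t ≤ F * Q ^ t * ((1 - x) * (1 + 2 * x)) := by
    apply le_mul_of_one_le_right (by positivity)
    nlinarith
  calc F * Q ^ t ≤ F * (Q ^ t * (1 - x)) * (1 + 2 * x) := by linarith
    _ ≤ _ := by gcongr

open Classical in
/-- Expected number of data realised by a random automorphism. -/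
lemma data_le {t : ℕ} (ht : 2 * Fintype.card K ^ t ≤ Fintype.card V) {α : Type*} (S : Finset α)
    (P R : α → Fin t → V) :
    ∑ g : V ≃ₗ[K] V, (#{a ∈ S | LinearIndependent K (P a) ∧ ∀ i, g (P a i) = R a i} : ℝ)
      ≤ #S * (Fintype.card (V ≃ₗ[K] V) *
        ((1 + 2 * (Fintype.card K : ℝ) ^ t / Fintype.card V) / (Fintype.card V : ℝ) ^ t)) := by
  simp_rw [Finset.card_filter]
  push_cast
  rw [Finset.sum_comm, ← nsmul_eq_mul, ← Finset.sum_const]
  refine Finset.sum_le_sum fun a _ => ?_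
  by_cases h : LinearIndependent K (P a)
  · have := fiber_le ht (P a) (R a) h
    rw [Finset.card_filter] at this
    push_cast at this
    simpa [h] using this
  · simp only [h, false_and, if_false, sum_const_zero]
    positivity

/-- Vectors whose first `D + 1` iterates are linearly dependent. -/
def Bad (D : ℕ) (A : V ≃ₗ[K] V) : Set V :=
  {v | ¬ LinearIndependent K fun i : Fin (D + 1) => (A ^ (i : ℕ)) v}

omit [Fintype K] [Fintype V] [Fintype (V ≃ₗ[K] V)] in
lemma exists_first_dep (u : ℕ → V) (D : ℕ) (h : ¬ LinearIndependent K fun i : Fin (D + 1) => u i) :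
    ∃ t ≤ D, (LinearIndependent K fun i : Fin t => u i) ∧
      u t ∈ Submodule.span K (Set.range fun i : Fin t => u i) := by
  induction D with
  | zero =>
    refine ⟨0, le_rfl, linearIndependent_empty_type, ?_⟩
    have : u 0 = 0 := by simpa [linearIndependent_unique_iff] using h
    simp [this]
  | succ D ih =>
    by_cases h2 : LinearIndependent K fun i : Fin (D + 1) => u i
    · refine ⟨D + 1, le_rfl, h2, ?_⟩
      by_contra h3
      apply h
      rw [linearIndependent_finSucc']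
      exact ⟨h2, h3⟩
    · obtain ⟨t, ht, h3⟩ := ih h2
      exact ⟨t, by omega, h3⟩

/-- The image tuple attached to a Krylov datum. -/
def shiftR (t : ℕ) (a : (Fin t → V) × (Fin t → K)) (i : Fin t) : V :=
  if h : (i : ℕ) + 1 < t then a.1 ⟨i + 1, h⟩ else ∑ j, a.2 j • a.1 j

omit [Fintype (V ≃ₗ[K] V)] in
open Classical in
lemma card_bad_le (D : ℕ) (A : V ≃ₗ[K] V) : #{v | v ∈ Bad D A} ≤ 1 + ∑ s ∈ range D,
      #{a ∈ (univ : Finset ((Fin (s + 1) → V) × (Fin (s + 1) → K))) |
        LinearIndependent K a.1 ∧ ∀ i, A (a.1 i) = shiftR (s + 1) a i} := by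
  have h1 : (univ.filter fun v => v ∈ Bad D A) ⊆ {0} ∪ (range D).biUnion fun s =>
      (univ.filter fun a : (Fin (s + 1) → V) × (Fin (s + 1) → K) =>
        LinearIndependent K a.1 ∧ ∀ i, A (a.1 i) = shiftR (s + 1) a i).image fun a => a.1 0 := by
    intro v hv
    have hv' : v ∈ Bad D A := by simpa using hv
    obtain ⟨t, ht, h2, h3⟩ := exists_first_dep (fun i => (A ^ i) v) D hv'
    rcases t with _ | s
    · have : v = 0 := by simpa using h3
      simp [this]
    · obtain ⟨c, hc⟩ := (Submodule.mem_span_range_iff_exists_fun K).1 h3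
      simp only [mem_union, mem_biUnion, mem_range, mem_image, mem_filter, mem_univ, true_and]
      refine Or.inr ⟨s, by omega, (fun i => (A ^ (i : ℕ)) v, c), ⟨h2, fun i => ?_⟩, by simp⟩
      simp only [shiftR]
      split_ifs with h4
      · simp [pow_succ']
      · rw [hc]
        have : (i : ℕ) = s := by omega
        rw [this, pow_succ']
        simp
  refine (card_le_card h1).trans ((card_union_le _ _).trans ?_)
  simp only [card_singleton, add_le_add_iff_left]
  exact card_biUnion_le.trans (sum_le_sum fun s _ => card_image_le)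

open Classical in
lemma sum_krylov_le (D s : ℕ) (hs : s + 1 ≤ D) (hD : 2 * Fintype.card K ^ D ≤ Fintype.card V) :
    ∑ A : V ≃ₗ[K] V, (#{a ∈ (univ : Finset ((Fin (s + 1) → V) × (Fin (s + 1) → K))) |
        LinearIndependent K a.1 ∧ ∀ i, A (a.1 i) = shiftR (s + 1) a i} : ℝ)
      ≤ Fintype.card (V ≃ₗ[K] V) * (2 * (Fintype.card K : ℝ) ^ D) := by
  have hq : 2 ≤ Fintype.card K := Fintype.one_lt_card
  have hQ : (0 : ℝ) < Fintype.card V := by exact_mod_cast Fintype.card_pos
  have h5 : Fintype.card K ^ (s + 1) ≤ Fintype.card K ^ D :=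
    Nat.pow_le_pow_right (by omega) hs
  have h9 := data_le (K := K) (V := V) (t := s + 1) (by omega)
    (univ : Finset ((Fin (s + 1) → V) × (Fin (s + 1) → K))) (fun a => a.1) (shiftR (s + 1))
  refine le_trans (le_of_eq ?_) (h9.trans ?_)
  · refine sum_congr rfl fun A _ => ?_
    congr 1
  simp only [card_univ, Fintype.card_prod, Fintype.card_pi, prod_const, Fintype.card_fin]
  push_cast
  have h6 : (Fintype.card K : ℝ) ^ (s + 1) ≤ (Fintype.card K : ℝ) ^ D := by exact_mod_cast h5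
  have h7 : 2 * (Fintype.card K : ℝ) ^ D ≤ Fintype.card V := by exact_mod_cast hD
  have h8 : 2 * (Fintype.card K : ℝ) ^ (s + 1) / Fintype.card V ≤ 1 := by
    rw [div_le_one hQ]; linarith
  calc _ = Fintype.card (V ≃ₗ[K] V) * ((1 + 2 * (Fintype.card K : ℝ) ^ (s + 1) /
        Fintype.card V) * (Fintype.card K : ℝ) ^ (s + 1)) := by field_simp
    _ ≤ _ := by gcongr; linarith

open Classical in
lemma sum_card_bad (D : ℕ) (hD : 2 * Fintype.card K ^ D ≤ Fintype.card V) :
    ∑ A : V ≃ₗ[K] V, (#{v | v ∈ Bad D A} : ℝ)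
      ≤ Fintype.card (V ≃ₗ[K] V) * (1 + 2 * D * (Fintype.card K : ℝ) ^ D) := by
  calc ∑ A : V ≃ₗ[K] V, (#{v | v ∈ Bad D A} : ℝ)
      ≤ ∑ A : V ≃ₗ[K] V, (1 + ∑ s ∈ range D,
        (#{a ∈ (univ : Finset ((Fin (s + 1) → V) × (Fin (s + 1) → K))) |
          LinearIndependent K a.1 ∧ ∀ i, A (a.1 i) = shiftR (s + 1) a i} : ℝ)) := by
        refine sum_le_sum fun A _ => ?_
        have := (Nat.cast_le (α := ℝ)).2 (card_bad_le D A)
        rwa [Nat.cast_add, Nat.cast_one, Nat.cast_sum] at this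
    _ ≤ Fintype.card (V ≃ₗ[K] V) + ∑ s ∈ range D,
        Fintype.card (V ≃ₗ[K] V) * (2 * (Fintype.card K : ℝ) ^ D) := by
        rw [sum_add_distrib, sum_comm]
        refine add_le_add (by simp) (sum_le_sum fun s hs => ?_)
        exact sum_krylov_le D s (by simpa using hs) hD
    _ = _ := by simp; ring

/-- Vectors killed by a nonzero Laurent polynomial in `A` with exponents in `[-R, R]`. -/
def BadZ (R : ℕ) (A : V ≃ₗ[K] V) : Set V := {v | (A ^ (-(R : ℤ))) v ∈ Bad (2 * R) A}

omit [Fintype K] [Fintype (V ≃ₗ[K] V)] in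
open Classical in
lemma card_badZ (R : ℕ) (A : V ≃ₗ[K] V) : #{v | v ∈ BadZ R A} ≤ #{v | v ∈ Bad (2 * R) A} := by
  refine card_le_card_of_injOn (fun v => (A ^ (-(R : ℤ))) v) ?_ ?_
  · intro v hv
    simpa [BadZ] using hv
  · exact (A ^ (-(R : ℤ))).injective.injOn

omit [Fintype K] [Fintype V] [Fintype (V ≃ₗ[K] V)] in
lemma mem_badZ {R : ℕ} {A : V ≃ₗ[K] V} {v : V} (n : ℤ) (S : Set ℤ) (hn : |n| ≤ R)
    (hS : ∀ j ∈ S, |j| ≤ R ∧ j ≠ n)
    (h : (A ^ n) v ∈ Submodule.span K ((fun j : ℤ => (A ^ j) v) '' S)) : v ∈ BadZ R A := by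
  intro hli
  have e : ∀ j : ℤ, |j| ≤ R → ∃ i : Fin (2 * R + 1), (i : ℤ) = j + R ∧
      (A ^ (i : ℕ)) ((A ^ (-(R : ℤ))) v) = (A ^ j) v := by
    intro j hj
    have h1 := abs_le.1 hj
    refine ⟨⟨(j + R).toNat, by omega⟩, by simp; omega, ?_⟩
    rw [← LinearEquiv.mul_apply, ← zpow_natCast, ← zpow_add]
    congr 2
    simp only
    omega
  obtain ⟨i, hi, hi'⟩ := e n hn
  have := hli.notMem_span_image (s := {k | k ≠ i}) (x := i) (by simp)
  apply this
  simp only [hi']
  refine Submodule.span_mono ?_ h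
  rintro _ ⟨j, hj, rfl⟩
  obtain ⟨k, hk, hk'⟩ := e j (hS j hj).1
  refine ⟨k, ?_, hk'⟩
  rintro rfl
  exact (hS j hj).2 (by omega)

end Pool.Agent.P.MP_c21a16_pr
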