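import Mathlib

namespace Pool.Agent.P.MP_c21a16_pr

variable {K : Type*} [Field K] {N : ℕ}

/-- The linear action of `GL_N(K)` on the nonzero vectors of `K ^ N`. -/
def act (A : GL (Fin N) K) (v : {v : Fin N → K // v ≠ 0}) : {v : Fin N → K // v ≠ 0} :=
  ⟨(A : Matrix (Fin N) (Fin N) K).mulVec v.1, fun h => v.2 (by
    have := congrArg ((A⁻¹ : GL (Fin N) K) : Matrix (Fin N) (Fin N) K).mulVec h
    simpa [Matrix.mulVec_mulVec] using this)⟩

/-- Every eigenvalue `μ` of the adjacency operator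
`T f (v) = f (A v) + f (A⁻¹ v) + f (B v) + f (B⁻¹ v)` on the orthogonal complement of the constant
functions satisfies `|μ| ≤ c`; that is, `λ(G_N(A, B)) ≤ c`. -/
def LamLe [Fintype K] [DecidableEq K] (A B : GL (Fin N) K) (c : ℝ) : Prop :=
  ∀ (μ : ℝ) (f : {v : Fin N → K // v ≠ 0} → ℝ), f ≠ 0 → ∑ v, f v = 0 →
    (∀ v, f (act A v) + f (act A⁻¹ v) + f (act B v) + f (act B⁻¹ v) = μ * f v) → |μ| ≤ c

end Pool.Agent.P.MP_c21a16_pr
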