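import Mathlib
import Pool.Agent.P.MP_c21a16_pr.Count

/-!
Cyclic windows of a closed trajectory.
-/

namespace Pool.Agent.P.MP_c21a16_pr

open Module Finset

section Det

variable (K : Type*) {V : Type*} [Field K] [AddCommGroup V] [Module K V]

/-- The window of length `t` starting at `a`. -/
def win (p : ℕ → V) (a t : ℕ) : Fin t → V := fun i => p (a + i)

/-- A maximal independent window which is not of the periodic type. -/
def BadWin (p : ℕ → V) (e : ℕ → ℤ) (s t : ℕ) : Prop :=
  LinearIndependent K (win p (s + 1) t) ∧ p s ∈ Submodule.span K (Set.range (win p (s + 1) t)) ∧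
    p (s + 1 + t) ∈ Submodule.span K (Set.range (win p (s + 1) t)) ∧
    (Odd t ∨ e (s + t) ≠ e s ∨ ¬ LinearIndependent K (win p (s + 2) t))

variable {K}

lemma per_mod {α : Type*} {p : ℕ → α} {l : ℕ} (hp : ∀ s, p (s + l) = p s) (a j : ℕ) :
    p (a % l + j) = p (a + j) := by
  have h : Function.Periodic p l := hp
  have := h.nat_mul (a / l) (a % l + j)
  rw [← this]
  congr 1
  have := Nat.mod_add_div a l
  simp only [Nat.cast_id]
  rw [mul_comm]
  omega

omit [AddCommGroup V] in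
lemma win_mod {p : ℕ → V} {l : ℕ} (hp : ∀ s, p (s + l) = p s) (a j t : ℕ) :
    win p (a % l + j) t = win p (a + j) t := by
  ext i
  simp only [win, add_assoc]
  exact per_mod hp a _

lemma BadWin.mod {p : ℕ → V} {e : ℕ → ℤ} {l : ℕ} (hp : ∀ s, p (s + l) = p s)
    (he : ∀ s, e (s + l) = e s) {s t : ℕ} (h : BadWin K p e s t) : BadWin K p e (s % l) t := by
  have h1 : p (s % l) = p s := per_mod hp s 0
  have h2 : e (s % l) = e s := per_mod he s 0
  have h3 : p (s % l + 1 + t) = p (s + 1 + t) := by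
    rw [add_assoc, add_assoc]; exact per_mod hp s _
  unfold BadWin at h ⊢
  rwa [win_mod hp, win_mod hp, h1, h2, h3, per_mod he]

omit [AddCommGroup V] in
lemma range_win_full {p : ℕ → V} {l : ℕ} (hl : 0 < l) (hp : ∀ s, p (s + l) = p s) (a : ℕ) :
    Set.range (win p a l) = Set.range p := by
  apply Set.Subset.antisymm
  · rintro _ ⟨i, rfl⟩
    exact ⟨_, rfl⟩
  · rintro _ ⟨j, rfl⟩
    refine ⟨⟨(j + (l - 1) * a) % l, Nat.mod_lt _ hl⟩, ?_⟩
    simp only [win]
    rw [add_comm, per_mod hp]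
    have h : Function.Periodic p l := hp
    have := h.nat_mul a j
    rw [← this]
    congr 1
    obtain ⟨m, rfl⟩ : ∃ m, l = m + 1 := ⟨l - 1, by omega⟩
    simp
    ring

theorem trichotomy {p : ℕ → V} {e : ℕ → ℤ} {l : ℕ} (hl : 0 < l) (hp : ∀ s, p (s + l) = p s)
    (he : ∀ s, e (s + l) = e s) (h0 : p 0 ≠ 0) :
    LinearIndependent K (win p 1 l) ∨ (∃ s < l, ∃ t, 0 < t ∧ t < l ∧ BadWin K p e s t) ∨
      ∃ t, 0 < t ∧ t < l ∧ ∀ s, e (s + t) = e s := by
  classical
  let P : ℕ → Prop := fun t => ∃ a, LinearIndependent K (win p a t)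
  have hP1 : P 1 := ⟨0, by simpa [linearIndependent_unique_iff, win] using h0⟩
  set t := Nat.findGreatest P l with ht
  have ht1 : 1 ≤ t := Nat.le_findGreatest hl hP1
  have htP : P t := Nat.findGreatest_spec hl hP1
  have htl : t ≤ l := Nat.findGreatest_le l
  rcases htl.eq_or_lt with h | h
  · left
    obtain ⟨a, ha⟩ := htP
    rw [h] at ha
    rw [linearIndependent_iff_card_eq_finrank_span] at ha ⊢
    rwa [range_win_full hl hp] at ha ⊢
  right
  have hmax : ∀ a, ¬ LinearIndependent K (win p a (t + 1)) := fun a ha =>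
    Nat.findGreatest_is_greatest (P := P) (n := l) (k := t + 1) (by omega) (by omega) ⟨a, ha⟩
  by_cases hb : ∃ s, BadWin K p e s t
  · obtain ⟨s, hs⟩ := hb
    exact Or.inl ⟨s % l, Nat.mod_lt _ hl, t, ht1, h, hs.mod hp he⟩
  right
  push Not at hb
  have step : ∀ s, LinearIndependent K (win p (s + 1) t) →
      e (s + t) = e s ∧ LinearIndependent K (win p (s + 2) t) := by
    intro s hs
    have h1 : p s ∈ Submodule.span K (Set.range (win p (s + 1) t)) := by
      by_contra hc
      apply hmax s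
      rw [linearIndependent_finSucc]
      have : Fin.tail (win p s (t + 1)) = win p (s + 1) t := by
        ext i
        simp only [Fin.tail, win, Fin.val_succ]
        congr 1
        ring
      rw [this]
      exact ⟨hs, hc⟩
    have h2 : p (s + 1 + t) ∈ Submodule.span K (Set.range (win p (s + 1) t)) := by
      by_contra hc
      apply hmax (s + 1)
      rw [linearIndependent_finSucc']
      exact ⟨hs, hc⟩
    have h3 := hb s
    unfold BadWin at h3
    push Not at h3
    exact (h3 hs h1 h2).2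
  obtain ⟨a, ha⟩ := htP
  have hall : ∀ j, LinearIndependent K (win p (a + l - 1 + j + 1) t) := by
    intro j
    induction j with
    | zero =>
      have : win p (a + l - 1 + 0 + 1) t = win p a t := by
        ext i
        simp only [win]
        rw [← hp (a + i)]
        congr 1
        omega
      rwa [this]
    | succ j ih => exact (step _ ih).2
  refine ⟨t, ht1, h, fun s => ?_⟩
  have h4 := (step _ (hall (s + (l - 1) * (a + l - 1)))).1
  have h5 : a + l - 1 + (s + (l - 1) * (a + l - 1)) = s + (a + l - 1) * l := by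
    obtain ⟨m, rfl⟩ : ∃ m, l = m + 1 := ⟨l - 1, by omega⟩
    simp only [add_tsub_cancel_right]
    ring
  have h6 : Function.Periodic e l := he
  rw [h5, add_right_comm] at h4
  have h7 := h6.nat_mul (a + l - 1) (s + t)
  have h8 := h6.nat_mul (a + l - 1) s
  simp only [Nat.cast_id] at h7 h8
  rwa [h7, h8] at h4

lemma BadWin.coeffs {p : ℕ → V} {e : ℕ → ℤ} {s t : ℕ} (h : BadWin K p e s (t + 1)) :
    ∃ c c' : Fin (t + 1) → K, p s = ∑ i, c' i • p (s + 1 + i) ∧
      p (s + 1 + (t + 1)) = ∑ i, c i • p (s + 1 + i) ∧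
      (Odd (t + 1) ∨ e (s + (t + 1)) ≠ e s ∨ c 0 = 0) := by
  obtain ⟨h1, h2, h3, h4⟩ := h
  obtain ⟨c', hc'⟩ := (Submodule.mem_span_range_iff_exists_fun K).1 h2
  obtain ⟨c, hc⟩ := (Submodule.mem_span_range_iff_exists_fun K).1 h3
  rcases h4 with h4 | h4 | h4
  · exact ⟨c, c', hc'.symm, hc.symm, Or.inl h4⟩
  · exact ⟨c, c', hc'.symm, hc.symm, Or.inr (Or.inl h4)⟩
  · rw [linearIndependent_finSucc] at h1
    rw [linearIndependent_finSucc'] at h4
    have e1 : Fin.tail (win p (s + 1) (t + 1)) = Fin.init (win p (s + 2) (t + 1)) := by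
      ext i
      simp only [Fin.tail, Fin.init, win, Fin.val_succ, Fin.val_castSucc]
      congr 1
      ring
    rw [← e1] at h4
    push Not at h4
    obtain ⟨d, hd⟩ := (Submodule.mem_span_range_iff_exists_fun K).1 (h4 h1.1)
    refine ⟨Fin.cons 0 d, c', hc'.symm, ?_, Or.inr (Or.inr rfl)⟩
    rw [Fin.sum_univ_succ]
    simp only [Fin.cons_zero, zero_smul, Fin.cons_succ, zero_add]
    have e2 : p (s + 1 + (t + 1)) = win p (s + 2) (t + 1) (Fin.last t) := by
      simp only [win, Fin.val_last]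
      congr 1
      ring
    rw [e2, ← hd]
    rfl

end Det

lemma card_le_image_mul_ker {M N : Type*} [AddCommGroup M] [AddCommGroup N] [DecidableEq N]
    (S : Finset M) (hS : ∀ a ∈ S, ∀ b ∈ S, a - b ∈ S) (φ : M →+ N) :
    #S ≤ #{a ∈ S | φ a = 0} * #(S.image φ) := by
  refine card_le_mul_card_image S _ fun y hy => ?_
  obtain ⟨a₀, ha₀, rfl⟩ := mem_image.1 hy
  refine card_le_card_of_injOn (fun a => a - a₀) ?_ (fun a _ b _ h => by simpa using h)
  intro a ha
  simp only [coe_filter, Set.mem_ofPred_eq] at ha ⊢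
  exact ⟨hS a ha.1 a₀ ha₀, by rw [map_sub, ha.2, sub_self]⟩

variable {K V : Type*} [Field K] [AddCommGroup V] [Module K V]

/-- The operator used at step `s`, on its own side. -/
def Ms (A B : V ≃ₗ[K] V) (s : ℕ) : V ≃ₗ[K] V := if s % 2 = 0 then B else A

/-- Change of coordinates to the side of step `s`. -/
def side (g : V ≃ₗ[K] V) (s : ℕ) : V ≃ₗ[K] V := if s % 2 = 0 then 1 else g

/-- The word of length `s`. -/
def wd (C : ℕ → V ≃ₗ[K] V) (e : ℕ → ℤ) : ℕ → V ≃ₗ[K] V
  | 0 => 1
  | s + 1 => C s ^ e s * wd C e s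

/-- The window seen on side `k`, in terms of the generators `a`. -/
def Zs (A B : V ≃ₗ[K] V) (e : ℕ → ℤ) (s : ℕ) {t : ℕ} (k : ℕ) (a : Fin (t + 1) → V) (i : Fin t) :
    V :=
  if (k + (s + 1 + i)) % 2 = 0 then a i.succ else (Ms A B (s + i) ^ e (s + i)) (a i.castSucc)

/-- The generators of a window. -/
def gen (g : V ≃ₗ[K] V) (p : ℕ → V) (s t : ℕ) : Fin (t + 1) → V :=
  fun i => side g (s + i) (p (s + i))

lemma side_step (A B g : V ≃ₗ[K] V) (e : ℕ → ℤ) (v : V) (s : ℕ) :
    side g s (wd (Ms (g⁻¹ * A * g) B) e (s + 1) v) =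
      (Ms A B s ^ e s) (side g s (wd (Ms (g⁻¹ * A * g) B) e s v)) := by
  simp only [wd, side, Ms]
  split_ifs
  · simp
  · have : (g⁻¹ * A * g) ^ e s = g⁻¹ * A ^ e s * g := by
      have := conj_zpow (a := g⁻¹) (b := A) (i := e s)
      simpa using this
    rw [this]
    simp

lemma Zs_gen (A B g : V ≃ₗ[K] V) (e : ℕ → ℤ) (v : V) (s t k : ℕ) (i : Fin t) :
    Zs A B e s k (gen g (fun j => wd (Ms (g⁻¹ * A * g) B) e j v) s t) i =
      side g k (wd (Ms (g⁻¹ * A * g) B) e (s + 1 + i) v) := by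
  unfold Zs gen
  split_ifs with h
  · simp only [Fin.val_succ]
    have e1 : s + (i + 1) = s + 1 + i := by ring
    rw [e1]
    have : side g (s + 1 + i) = side g k := by
      unfold side
      have : ((s + 1 + i) % 2 = 0) ↔ (k % 2 = 0) := by omega
      simp only [this]
    rw [this]
  · simp only [Fin.val_castSucc]
    rw [← side_step]
    have : side g (s + i) = side g k := by
      unfold side
      have : ((s + i) % 2 = 0) ↔ (k % 2 = 0) := by omega
      simp only [this]
    rw [this]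
    congr 3
    ring

lemma Zs_sub (A B : V ≃ₗ[K] V) (e : ℕ → ℤ) (s : ℕ) {t : ℕ} (k : ℕ) (a b : Fin (t + 1) → V)
    (i : Fin t) : Zs A B e s k (a - b) i = Zs A B e s k a i - Zs A B e s k b i := by
  unfold Zs
  split_ifs <;> simp

lemma sum_Zs (A B : V ≃ₗ[K] V) (e : ℕ → ℤ) (s : ℕ) {t : ℕ} (k : ℕ) (d : Fin (t + 2) → V)
    (hd : ∀ i : Fin t, d i.succ.castSucc = 0) (c : Fin (t + 1) → K) :
    ∑ i, c i • Zs A B e s k d i =
      (if (k + s) % 2 = 0 then c 0 • (Ms A B s ^ e s) (d 0) else 0) +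
      (if (k + (s + (t + 1))) % 2 = 0 then c (Fin.last t) • d (Fin.last (t + 1)) else 0) := by
  have h1 : ∀ i : Fin (t + 1), c i • Zs A B e s k d i =
      (if (k + (s + 1 + i)) % 2 = 0 then 0 else c i • (Ms A B (s + i) ^ e (s + i)) (d i.castSucc)) +
      (if (k + (s + 1 + i)) % 2 = 0 then c i • d i.succ else 0) := by
    intro i
    unfold Zs
    split_ifs <;> simp
  simp_rw [h1]
  rw [sum_add_distrib]
  congr 1
  · rw [Fin.sum_univ_succ, Finset.sum_eq_zero]
    · have : ((k + (s + 1 + ((0 : Fin (t + 1)) : ℕ))) % 2 = 0) ↔ ¬ ((k + s) % 2 = 0) := by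
        simp only [Fin.val_zero]; omega
      simp only [this]
      split_ifs <;> simp_all
    · intro i _
      rw [hd i]
      simp
  · rw [Fin.sum_univ_castSucc, Finset.sum_eq_zero]
    · have : s + 1 + ((Fin.last t : Fin (t + 1)) : ℕ) = s + (t + 1) := by
        simp only [Fin.val_last]; omega
      rw [this]
      simp
    · intro i _
      rw [Fin.succ_castSucc, hd i]
      simp

/-- Generators satisfying the forward and the backward relation. -/
def Rel (A B : V ≃ₗ[K] V) (e : ℕ → ℤ) (s : ℕ) {t : ℕ} (c c' : Fin t → K) (a : Fin (t + 1) → V) :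
    Prop :=
  a 0 = ∑ i, c' i • Zs A B e s s a i ∧
    (Ms A B (s + t) ^ e (s + t)) (a (Fin.last t)) = ∑ i, c i • Zs A B e s (s + t) a i

lemma Rel.sub {A B : V ≃ₗ[K] V} {e : ℕ → ℤ} {s t : ℕ} {c c' : Fin t → K} {a b : Fin (t + 1) → V}
    (ha : Rel A B e s c c' a) (hb : Rel A B e s c c' b) : Rel A B e s c c' (a - b) := by
  unfold Rel at *
  simp only [Zs_sub, smul_sub, sum_sub_distrib, Pi.sub_apply, map_sub, ← ha.1, ← ha.2, ← hb.1,
    ← hb.2, and_self]

lemma Rel.last_bad {A B : V ≃ₗ[K] V} {e : ℕ → ℤ} {s t R : ℕ} {c c' : Fin (t + 1) → K}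
    (he : ∀ j, e j ≠ 0 ∧ 2 * |e j| ≤ R) {d : Fin (t + 2) → V}
    (hd : ∀ i : Fin t, d i.succ.castSucc = 0) (h : Rel A B e s c c' d)
    (hc : Odd (t + 1) ∨ e (s + (t + 1)) ≠ e s ∨ c 0 = 0) :
    d (Fin.last (t + 1)) ∈ BadZ R (Ms A B (s + (t + 1))) := by
  obtain ⟨h1, h2⟩ := h
  rw [sum_Zs A B e s _ d hd] at h1 h2
  rw [if_pos (by omega)] at h1
  rw [if_pos (c := (s + (t + 1) + (s + (t + 1))) % 2 = 0) (by omega)] at h2
  have b1 := he s
  have b2 := he (s + (t + 1))
  have simple : (Ms A B (s + (t + 1)) ^ e (s + (t + 1))) (d (Fin.last (t + 1))) =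
      c (Fin.last t) • d (Fin.last (t + 1)) →
      d (Fin.last (t + 1)) ∈ BadZ R (Ms A B (s + (t + 1))) := by
    intro h3
    refine mem_badZ (e (s + (t + 1))) {0} (by have := abs_nonneg (e (s + (t + 1))); omega)
      (by simpa using b2.1.symm) ?_
    rw [h3]
    exact Submodule.smul_mem _ _ (Submodule.subset_span ⟨0, rfl, by simp⟩)
  by_cases hodd : Odd (t + 1)
  · rw [if_neg (by have := Nat.odd_iff.1 hodd; omega), zero_add] at h2
    exact simple h2
  have hev : (t + 1) % 2 = 0 := by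
    rw [Nat.odd_iff] at hodd; omega
  rw [if_pos (by omega)] at h1 h2
  by_cases hc0 : c 0 = 0
  · rw [hc0, zero_smul, zero_add] at h2
    exact simple h2
  have hne : e (s + (t + 1)) ≠ e s := by tauto
  have hM : Ms A B (s + (t + 1)) = Ms A B s := by
    unfold Ms
    have : ((s + (t + 1)) % 2 = 0) ↔ (s % 2 = 0) := by omega
    simp only [this]
  rw [hM] at h2 ⊢
  set M := Ms A B s
  set x := d 0
  set y := d (Fin.last (t + 1))
  set n := e (s + (t + 1))
  set n' := e s
  have a1 := abs_nonneg n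
  have a2 := abs_nonneg n'
  refine mem_badZ (n - n') {0, n, -n'} (by have := abs_sub n n'; omega) ?_ ?_
  · intro j hj
    simp only [Set.mem_insert_iff, Set.mem_singleton_iff] at hj
    rcases hj with rfl | rfl | rfl
    · exact ⟨by simp, by omega⟩
    · exact ⟨by omega, by omega⟩
    · exact ⟨by rw [abs_neg]; omega, by omega⟩
  · have e1 : (M ^ (n - n')) y = c 0 • x + c (Fin.last t) • (M ^ (-n')) y := by
      rw [sub_eq_neg_add, zpow_add, LinearEquiv.mul_apply, h2, map_add, map_smul, map_smul,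
        ← LinearEquiv.mul_apply, ← zpow_add]
      simp
    have e2 : c 0 • x = c' 0 • (M ^ n) y + (c 0 * c' (Fin.last t) - c' 0 * c (Fin.last t)) • y := by
      rw [h2]
      conv_lhs => rw [h1]
      module
    rw [e1, e2]
    refine add_mem (add_mem ?_ ?_) ?_
    · exact Submodule.smul_mem _ _ (Submodule.subset_span ⟨n, by simp, rfl⟩)
    · exact Submodule.smul_mem _ _ (Submodule.subset_span ⟨0, by simp, by simp⟩)
    · exact Submodule.smul_mem _ _ (Submodule.subset_span ⟨-n', by simp, rfl⟩)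

lemma Rel.first_bad {A B : V ≃ₗ[K] V} {e : ℕ → ℤ} {s t R : ℕ} {c c' : Fin (t + 1) → K}
    (he : ∀ j, e j ≠ 0 ∧ 2 * |e j| ≤ R) {d : Fin (t + 2) → V}
    (hd : ∀ i : Fin t, d i.succ.castSucc = 0) (h : Rel A B e s c c' d)
    (hy : d (Fin.last (t + 1)) = 0) : d 0 ∈ BadZ R (Ms A B s) := by
  obtain ⟨h1, -⟩ := h
  rw [sum_Zs A B e s _ d hd, if_pos (by omega), hy] at h1
  simp only [smul_zero, ite_self, add_zero] at h1
  have b1 := he s
  refine mem_badZ 0 {e s} (by simp) ?_ ?_
  · intro j hj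
    rw [Set.mem_singleton_iff.1 hj]
    exact ⟨by have := abs_nonneg (e s); omega, b1.1⟩
  · have h2 : (Ms A B s ^ (0 : ℤ)) (d 0) = c' 0 • (Ms A B s ^ e s) (d 0) := by
      rw [← h1]; simp
    rw [h2]
    exact Submodule.smul_mem _ _ (Submodule.subset_span ⟨e s, rfl, rfl⟩)

open Classical in
lemma card_rel_le [Fintype V] {A B : V ≃ₗ[K] V} {e : ℕ → ℤ} {s t R κ : ℕ}
    {c c' : Fin (t + 1) → K} (he : ∀ j, e j ≠ 0 ∧ 2 * |e j| ≤ R)
    (hA : #{v | v ∈ BadZ R A} ≤ κ) (hB : #{v | v ∈ BadZ R B} ≤ κ)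
    (hc : Odd (t + 1) ∨ e (s + (t + 1)) ≠ e s ∨ c 0 = 0) :
    #{a : Fin (t + 2) → V | Rel A B e s c c' a} ≤ κ * κ * Fintype.card V ^ t := by
  have hM : ∀ j, #{v | v ∈ BadZ R (Ms A B j)} ≤ κ := by
    intro j
    unfold Ms
    split_ifs
    · exact hB
    · exact hA
  let φ : (Fin (t + 2) → V) →+ (Fin t → V) :=
    { toFun := fun a i => a i.succ.castSucc, map_zero' := rfl, map_add' := fun _ _ => rfl }
  let ψ : (Fin (t + 2) → V) →+ V := Pi.evalAddMonoidHom _ (Fin.last (t + 1))
  set S : Finset (Fin (t + 2) → V) := {a | Rel A B e s c c' a}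
  have hS : ∀ a ∈ S, ∀ b ∈ S, a - b ∈ S := by
    intro a ha b hb
    simp only [S, mem_filter, mem_univ, true_and] at ha hb ⊢
    exact ha.sub hb
  refine (card_le_image_mul_ker S hS φ).trans (Nat.mul_le_mul ?_ ?_)
  · set S' := S.filter fun a => φ a = 0
    have hS' : ∀ a ∈ S', ∀ b ∈ S', a - b ∈ S' := by
      intro a ha b hb
      simp only [S', mem_filter] at ha hb ⊢
      exact ⟨hS a ha.1 b hb.1, by rw [map_sub, ha.2, hb.2, sub_self]⟩
    refine (card_le_image_mul_ker S' hS' ψ).trans (Nat.mul_le_mul ?_ ?_)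
    · refine le_trans (card_le_card_of_injOn (fun a => a 0) ?_ ?_) (hM s)
      · intro a ha
        simp only [S', S, coe_filter, mem_filter, mem_univ, true_and, Set.mem_ofPred_eq] at ha ⊢
        exact ha.1.1.first_bad he (fun i => congrFun ha.1.2 i) ha.2
      · intro a ha b hb hab
        simp only [S', S, coe_filter, mem_filter, mem_univ, true_and, Set.mem_ofPred_eq] at ha hb
        ext i
        rcases Fin.eq_zero_or_eq_succ i with rfl | ⟨j, rfl⟩
        · exact hab
        · rcases Fin.eq_castSucc_or_eq_last j with ⟨k, rfl⟩ | rfl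
          · exact (congrFun ha.1.2 k).trans (congrFun hb.1.2 k).symm
          · exact ha.2.trans hb.2.symm
    · refine le_trans (card_le_card ?_) (hM (s + (t + 1)))
      intro y hy
      obtain ⟨a, ha, rfl⟩ := mem_image.1 hy
      simp only [S', S, mem_filter, mem_univ, true_and] at ha ⊢
      exact ha.1.last_bad he (fun i => congrFun ha.2 i) hc
  · exact (card_le_univ _).trans (by simp)

end Pool.Agent.P.MP_c21a16_pr
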