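import Mathlib
import Pool.Agent.P.MP_c21a16_pr.Window

/-!
Expected number of nonzero fixed vectors of an alternating word.
-/

namespace Pool.Agent.P.MP_c21a16_pr

open Module Finset

variable {K V : Type*} [Field K] [Fintype K] [AddCommGroup V] [Module K V] [Fintype V]
  [Fintype (V ≃ₗ[K] V)]

/-- The trajectory of `v`. -/
def traj (A B g : V ≃ₗ[K] V) (e : ℕ → ℤ) (v : V) : ℕ → V :=
  fun j => wd (Ms (g⁻¹ * A * g) B) e j v

open Classical in
lemma window_le (A B : V ≃ₗ[K] V) (e : ℕ → ℤ) (s t : ℕ)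
    (ht : 2 * Fintype.card K ^ t ≤ Fintype.card V) (S : Finset (Fin (t + 1) → V)) :
    ∑ g : V ≃ₗ[K] V, (#{v : V | LinearIndependent K (win (traj A B g e v) (s + 1) t) ∧
        gen g (traj A B g e v) s t ∈ S} : ℝ)
      ≤ #S * (Fintype.card (V ≃ₗ[K] V) *
        ((1 + 2 * (Fintype.card K : ℝ) ^ t / Fintype.card V) / (Fintype.card V : ℝ) ^ t)) := by
  refine le_trans (sum_le_sum fun g _ => ?_) (data_le ht S (Zs A B e s 0) (Zs A B e s 1))
  rw [Nat.cast_le]
  refine card_le_card_of_injOn (fun v => gen g (traj A B g e v) s t) ?_ ?_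
  · intro v hv
    simp only [coe_filter, mem_univ, true_and, Set.mem_ofPred_eq] at hv ⊢
    have h0 : ∀ i, Zs A B e s 0 (gen g (traj A B g e v) s t) i = traj A B g e v (s + 1 + i) :=
      fun i => Zs_gen A B g e v s t 0 i
    have h1 : ∀ i, Zs A B e s 1 (gen g (traj A B g e v) s t) i = g (traj A B g e v (s + 1 + i)) :=
      fun i => Zs_gen A B g e v s t 1 i
    refine ⟨hv.2, ?_, fun i => by rw [h0, h1]⟩
    rw [funext h0]
    exact hv.1
  · intro v _ w _ h
    have := congrFun h 0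
    simpa [gen, traj] using this

omit [Fintype K] [Fintype V] [Fintype (V ≃ₗ[K] V)] in
lemma traj_periodic {A B g : V ≃ₗ[K] V} {e : ℕ → ℤ} {l : ℕ} (hl : l % 2 = 0)
    (he : ∀ s, e (s + l) = e s) {v : V} (hv : traj A B g e v l = v) (s : ℕ) :
    traj A B g e v (s + l) = traj A B g e v s := by
  induction s with
  | zero => simpa [traj, wd] using hv
  | succ s ih =>
    have h1 : Ms (g⁻¹ * A * g) B (s + l) = Ms (g⁻¹ * A * g) B s := by
      unfold Ms
      have : ((s + l) % 2 = 0) ↔ (s % 2 = 0) := by omega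
      simp only [this]
    unfold traj at ih ⊢
    rw [add_right_comm]
    simp only [wd, LinearEquiv.mul_apply, ih, h1, he]

omit [Fintype K] [Fintype V] [Fintype (V ≃ₗ[K] V)] in
lemma rel_of_coeffs {A B g : V ≃ₗ[K] V} {e : ℕ → ℤ} {v : V} {s t : ℕ} {c c' : Fin t → K}
    (h1 : traj A B g e v s = ∑ i, c' i • traj A B g e v (s + 1 + i))
    (h2 : traj A B g e v (s + 1 + t) = ∑ i, c i • traj A B g e v (s + 1 + i)) :
    Rel A B e s c c' (gen g (traj A B g e v) s t) := by
  have h0 : ∀ k i, Zs A B e s k (gen g (traj A B g e v) s t) i =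
      side g k (traj A B g e v (s + 1 + i)) := fun k i => Zs_gen A B g e v s t k i
  unfold Rel
  simp only [h0, ← map_smul, ← map_sum, ← h1, ← h2]
  refine ⟨by simp [gen], ?_⟩
  have := side_step A B g e v (s + t)
  simp only [gen, Fin.val_last, traj]
  rw [← this, add_right_comm]

open Classical in
lemma badwin_le {A B : V ≃ₗ[K] V} {e : ℕ → ℤ} {R κ l : ℕ} (he : ∀ j, e j ≠ 0 ∧ 2 * |e j| ≤ R)
    (hA : #{v | v ∈ BadZ R A} ≤ κ) (hB : #{v | v ∈ BadZ R B} ≤ κ)
    (hl : 2 * Fintype.card K ^ l ≤ Fintype.card V) (s t : ℕ) (ht0 : 0 < t) (htl : t < l) :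
    ∑ g : V ≃ₗ[K] V, (#{v : V | BadWin K (traj A B g e v) e s t} : ℝ)
      ≤ Fintype.card (V ≃ₗ[K] V) *
        (2 * κ ^ 2 * (Fintype.card K : ℝ) ^ (2 * l) / Fintype.card V) := by
  obtain ⟨t, rfl⟩ : ∃ u, t = u + 1 := ⟨t - 1, by omega⟩
  have hq : 2 ≤ Fintype.card K := Fintype.one_lt_card
  have hQ : (0 : ℝ) < Fintype.card V := by exact_mod_cast Fintype.card_pos
  have h5 : Fintype.card K ^ (t + 1) ≤ Fintype.card K ^ l := Nat.pow_le_pow_right (by omega) htl.le
  let T : Finset ((Fin (t + 1) → K) × (Fin (t + 1) → K)) :=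
    {z | Odd (t + 1) ∨ e (s + (t + 1)) ≠ e s ∨ z.1 0 = 0}
  let S : Finset (Fin (t + 2) → V) := T.biUnion fun z => {a | Rel A B e s z.1 z.2 a}
  have hS : #S ≤ Fintype.card K ^ (2 * l) * (κ * κ * Fintype.card V ^ t) := by
    refine (card_biUnion_le_card_mul T _ _ fun z hz => ?_).trans (Nat.mul_le_mul_right _ ?_)
    · exact card_rel_le he hA hB (by simpa [T] using hz)
    · refine (card_le_univ _).trans ?_
      simp only [Fintype.card_prod, Fintype.card_pi, prod_const, card_univ, Fintype.card_fin]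
      rw [two_mul, pow_add _ l l]
      exact Nat.mul_le_mul h5 h5
  have hw := window_le A B e s (t + 1) (by omega) S
  refine le_trans (sum_le_sum fun g _ => ?_) (hw.trans ?_)
  · rw [Nat.cast_le]
    refine card_le_card fun v hv => ?_
    simp only [mem_filter, mem_univ, true_and] at hv ⊢
    obtain ⟨c, c', h1, h2, h3⟩ := hv.coeffs
    refine ⟨hv.1, mem_biUnion.2 ⟨(c, c'), by simpa [T] using h3, ?_⟩⟩
    simp only [mem_filter, mem_univ, true_and]
    exact rel_of_coeffs h1 h2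
  · have hS' : (#S : ℝ) ≤ (Fintype.card K : ℝ) ^ (2 * l) * (κ * κ * (Fintype.card V : ℝ) ^ t) := by
      exact_mod_cast hS
    have h6 : (Fintype.card K : ℝ) ^ (t + 1) ≤ (Fintype.card K : ℝ) ^ l := by exact_mod_cast h5
    have h7 : 2 * (Fintype.card K : ℝ) ^ l ≤ Fintype.card V := by exact_mod_cast hl
    have h8 : 2 * (Fintype.card K : ℝ) ^ (t + 1) / Fintype.card V ≤ 1 := by
      rw [div_le_one hQ]; linarith
    calc _ ≤ ((Fintype.card K : ℝ) ^ (2 * l) * (κ * κ * (Fintype.card V : ℝ) ^ t)) *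
          (Fintype.card (V ≃ₗ[K] V) * ((1 + 1) / (Fintype.card V : ℝ) ^ (t + 1))) := by gcongr
      _ = _ := by field_simp; ring

open Classical in
lemma mainwin_le (A B : V ≃ₗ[K] V) {e : ℕ → ℤ} {l : ℕ} (hl2 : l % 2 = 0)
    (hl0 : 0 < l) (hl : 2 * Fintype.card K ^ l ≤ Fintype.card V) :
    ∑ g : V ≃ₗ[K] V, (#{v : V | traj A B g e v l = v ∧
        LinearIndependent K (win (traj A B g e v) 1 l)} : ℝ)
      ≤ Fintype.card (V ≃ₗ[K] V) * (1 + 2 * (Fintype.card K : ℝ) ^ l / Fintype.card V) := by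
  have hQ : (0 : ℝ) < Fintype.card V := by exact_mod_cast Fintype.card_pos
  let S : Finset (Fin (l + 1) → V) := {a | a (Fin.last l) = a 0}
  have hS : #S ≤ Fintype.card V ^ l := by
    refine (card_le_card_of_injOn (t := univ) (fun a : Fin (l + 1) → V => Fin.init a)
      (fun _ _ => by simp) ?_).trans (by simp)
    intro a ha b hb hab
    simp only [S, coe_filter, mem_univ, true_and, Set.mem_ofPred_eq] at ha hb
    have h1 : ∀ i : Fin l, a i.castSucc = b i.castSucc := fun i => congrFun hab i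
    ext i
    rcases Fin.eq_castSucc_or_eq_last i with ⟨k, rfl⟩ | rfl
    · exact h1 k
    · rw [ha, hb]
      exact h1 ⟨0, hl0⟩
  have hw := window_le A B e 0 l hl S
  refine le_trans (sum_le_sum fun g _ => ?_) (hw.trans ?_)
  · rw [Nat.cast_le]
    refine card_le_card fun v hv => ?_
    simp only [S, mem_filter, mem_univ, true_and] at hv ⊢
    refine ⟨hv.2, ?_⟩
    simp only [gen, Fin.val_last, zero_add, Fin.val_zero, side, hl2, hv.1]
    simp [traj, wd]
  · have hS' : (#S : ℝ) ≤ (Fintype.card V : ℝ) ^ l := by exact_mod_cast hS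
    calc _ ≤ (Fintype.card V : ℝ) ^ l * (Fintype.card (V ≃ₗ[K] V) *
        ((1 + 2 * (Fintype.card K : ℝ) ^ l / Fintype.card V) / (Fintype.card V : ℝ) ^ l)) := by
          gcongr
      _ = _ := by field_simp

open Classical in
theorem fix_le {A B : V ≃ₗ[K] V} {e : ℕ → ℤ} {R κ l : ℕ} (he : ∀ j, e j ≠ 0 ∧ 2 * |e j| ≤ R)
    (hA : #{v | v ∈ BadZ R A} ≤ κ) (hB : #{v | v ∈ BadZ R B} ≤ κ) (hl2 : l % 2 = 0)
    (hp : ∀ s, e (s + l) = e s) (hl0 : 0 < l) (hl : 2 * Fintype.card K ^ l ≤ Fintype.card V) :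
    ∑ g : V ≃ₗ[K] V, (#{v : V | v ≠ 0 ∧ wd (Ms (g⁻¹ * A * g) B) e l v = v} : ℝ)
      ≤ Fintype.card (V ≃ₗ[K] V) * (1 + 2 * (Fintype.card K : ℝ) ^ l / Fintype.card V
        + l ^ 2 * (2 * κ ^ 2 * (Fintype.card K : ℝ) ^ (2 * l) / Fintype.card V)
        + if ∃ t, 0 < t ∧ t < l ∧ ∀ s, e (s + t) = e s then (Fintype.card V : ℝ) else 0) := by
  have hQ : (0 : ℝ) < Fintype.card V := by exact_mod_cast Fintype.card_pos
  split_ifs with hper
  · calc _ ≤ ∑ _g : V ≃ₗ[K] V, (Fintype.card V : ℝ) := by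
          refine sum_le_sum fun g _ => ?_
          exact_mod_cast card_le_univ _
      _ = Fintype.card (V ≃ₗ[K] V) * (0 + Fintype.card V) := by simp
      _ ≤ _ := by gcongr; positivity
  have key : ∀ g : V ≃ₗ[K] V, #{v : V | v ≠ 0 ∧ wd (Ms (g⁻¹ * A * g) B) e l v = v} ≤
      #{v : V | traj A B g e v l = v ∧ LinearIndependent K (win (traj A B g e v) 1 l)} +
      ∑ z ∈ range l ×ˢ Ioo 0 l, #{v : V | BadWin K (traj A B g e v) e z.1 z.2} := by
    intro g
    refine le_trans (card_le_card ?_) ((card_union_le _ _).trans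
      (Nat.add_le_add_left card_biUnion_le _))
    intro v hv
    simp only [mem_filter, mem_univ, true_and] at hv
    have h0 : traj A B g e v 0 ≠ 0 := by simpa [traj, wd] using hv.1
    rcases trichotomy (K := K) hl0 (traj_periodic hl2 hp hv.2) hp h0 with h | h | h
    · exact mem_union_left _ (mem_filter.2 ⟨mem_univ _, hv.2, h⟩)
    · obtain ⟨s, hs, t, ht0, htl, hb⟩ := h
      refine mem_union_right _ (mem_biUnion.2 ⟨(s, t), ?_, mem_filter.2 ⟨mem_univ _, hb⟩⟩)
      simp [hs, ht0, htl]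
    · exact absurd h hper
  calc _ ≤ ∑ g : V ≃ₗ[K] V, ((#{v : V | traj A B g e v l = v ∧
          LinearIndependent K (win (traj A B g e v) 1 l)} : ℝ) +
        ∑ z ∈ range l ×ˢ Ioo 0 l, (#{v : V | BadWin K (traj A B g e v) e z.1 z.2} : ℝ)) := by
        refine sum_le_sum fun g _ => ?_
        have := (Nat.cast_le (α := ℝ)).2 (key g)
        rwa [Nat.cast_add, Nat.cast_sum] at this
    _ ≤ Fintype.card (V ≃ₗ[K] V) * (1 + 2 * (Fintype.card K : ℝ) ^ l / Fintype.card V) +
        ∑ _z ∈ range l ×ˢ Ioo 0 l, Fintype.card (V ≃ₗ[K] V) *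
          (2 * κ ^ 2 * (Fintype.card K : ℝ) ^ (2 * l) / Fintype.card V) := by
        rw [sum_add_distrib, sum_comm]
        refine add_le_add (mainwin_le A B hl2 hl0 hl) (sum_le_sum fun z hz => ?_)
        simp only [mem_product, mem_range, mem_Ioo] at hz
        exact badwin_le he hA hB hl z.1 z.2 hz.2.1 hz.2.2
    _ ≤ _ := by
        rw [sum_const, nsmul_eq_mul, add_zero, mul_add _ _ (_ * _)]
        have : (#(range l ×ˢ Ioo 0 l) : ℝ) ≤ l ^ 2 := by
          have : #(range l ×ˢ Ioo 0 l) ≤ l ^ 2 := by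
            rw [card_product, card_range, Nat.card_Ioo, sq]
            exact Nat.mul_le_mul_left _ (by omega)
          exact_mod_cast this
        rw [mul_left_comm]
        gcongr

end Pool.Agent.P.MP_c21a16_pr
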