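import Mathlib

/-!
Abstract spectral lemmas: two self-adjoint operators `X, Y` with spectrum in `[-θ, 1]`.
-/

namespace Pool.Agent.P.MP_c21a16_pr

open Module

variable {E : Type*} [NormedAddCommGroup E] [InnerProductSpace ℂ E] [FiniteDimensional ℂ E]

/-- `X` is symmetric with spectrum in `[-θ, 1]`. -/
structure Hyp (θ : ℝ) (X : E →ₗ[ℂ] E) : Prop where
  symm : X.IsSymmetric
  quad : ∀ f, ‖X f‖ ^ 2 ≤ (1 - θ) * (inner ℂ (X f) f).re + θ * ‖f‖ ^ 2

omit [FiniteDimensional ℂ E] in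
lemma re_inner_le (f g : E) : (inner ℂ f g).re ≤ ‖f‖ * ‖g‖ :=
  (Complex.re_le_norm _).trans (norm_inner_le_norm f g)

omit [FiniteDimensional ℂ E] in
lemma re_inner_self (f : E) : (inner ℂ f f).re = ‖f‖ ^ 2 := by
  have := inner_self_eq_norm_sq (𝕜 := ℂ) f
  simpa only [RCLike.re_to_complex] using this

omit [FiniteDimensional ℂ E] in
lemma re_inner_add_smul (t : ℝ) (w x : E) :
    (inner ℂ (w + (t : ℂ) • x) w).re = ‖w‖ ^ 2 + t * (inner ℂ x w).re := by
  rw [inner_add_left, inner_smul_left, Complex.add_re, re_inner_self, Complex.conj_ofReal,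
    Complex.re_ofReal_mul]

omit [FiniteDimensional ℂ E] in
lemma abs_re_inner_le (f g : E) : |(inner ℂ f g).re| ≤ ‖f‖ * ‖g‖ :=
  (Complex.abs_re_le_norm _).trans (norm_inner_le_norm f g)

omit [FiniteDimensional ℂ E] in
lemma Hyp.norm_le {θ : ℝ} {X : E →ₗ[ℂ] E} (h : Hyp θ X) (h0 : 0 ≤ θ) (h1 : θ ≤ 1) (f : E) :
    ‖X f‖ ≤ ‖f‖ := by
  have h2 := h.quad f
  have h3 := re_inner_le (X f) f
  have h4 : (1 - θ) * (inner ℂ (X f) f).re ≤ (1 - θ) * (‖X f‖ * ‖f‖) :=
    mul_le_mul_of_nonneg_left h3 (by linarith)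
  by_contra hc
  push Not at hc
  have ha := norm_nonneg f
  have : 0 < ‖X f‖ + θ * ‖f‖ := by
    have := mul_nonneg h0 ha
    linarith
  nlinarith [mul_pos (sub_pos.2 hc) this]

omit [FiniteDimensional ℂ E] in
lemma Hyp.lower {θ : ℝ} {X : E →ₗ[ℂ] E} (h : Hyp θ X) (h0 : 0 ≤ θ) (f : E) :
    -θ * ‖f‖ ^ 2 ≤ (inner ℂ (X f) f).re := by
  have h2 := h.quad f
  have h3 := abs_re_inner_le (X f) f
  set ρ := (inner ℂ (X f) f).re
  by_contra hc
  push Not at hc
  have ha := norm_nonneg f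
  have hb := norm_nonneg (X f)
  have h4 : ρ ^ 2 ≤ ‖X f‖ ^ 2 * ‖f‖ ^ 2 := by
    have := sq_le_sq' (neg_le_of_abs_le h3) (le_of_abs_le h3)
    nlinarith
  have h5 : ‖X f‖ ^ 2 * ‖f‖ ^ 2 ≤ ((1 - θ) * ρ + θ * ‖f‖ ^ 2) * ‖f‖ ^ 2 :=
    mul_le_mul_of_nonneg_right h2 (by positivity)
  have h6 : ρ < 0 := by nlinarith [sq_nonneg ‖f‖]
  have h7 : 0 < (-θ * ‖f‖ ^ 2 - ρ) * (‖f‖ ^ 2 - ρ) :=
    mul_pos (by linarith) (by nlinarith [sq_nonneg ‖f‖])
  nlinarith

omit [FiniteDimensional ℂ E] in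
/-- A non-real eigenvalue of `X Y` has modulus at most `√θ`. -/
lemma nonreal_small {θ : ℝ} {X Y : E →ₗ[ℂ] E} (hX : Hyp θ X) (hY : Hyp θ Y) (h0 : 0 ≤ θ)
    (h1 : θ ≤ 1) {μ : ℂ} {f : E} (hf : f ≠ 0) (he : X (Y f) = μ • f) (him : μ.im ≠ 0) :
    ‖μ‖ ^ 2 ≤ θ := by
  have r1 : (inner ℂ (X (Y f)) (Y f)).im = 0 := by
    have := hX.symm.conj_inner_sym (Y f) (Y f)
    exact Complex.conj_eq_iff_im.1 this
  have r2 : (inner ℂ (Y f) f).im = 0 := by
    have := hY.symm.conj_inner_sym f f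
    exact Complex.conj_eq_iff_im.1 this
  have r3 : inner ℂ f (Y f) = inner ℂ (Y f) f := (hY.symm f f).symm
  rw [he, inner_smul_left, r3] at r1
  simp only [Complex.mul_im, Complex.conj_re, Complex.conj_im, r2, mul_zero, zero_add, neg_mul,
    neg_eq_zero, mul_eq_zero] at r1
  have r4 : (inner ℂ (Y f) f).re = 0 := r1.resolve_left him
  have r5 := hY.quad f
  rw [r4] at r5
  have r6 := hX.norm_le h0 h1 (Y f)
  rw [he, norm_smul] at r6
  have hp : 0 < ‖f‖ := norm_pos_iff.2 hf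
  have r7 : (‖μ‖ * ‖f‖) ^ 2 ≤ ‖Y f‖ ^ 2 := by gcongr
  have r8 : ‖μ‖ ^ 2 * ‖f‖ ^ 2 ≤ θ * ‖f‖ ^ 2 := by nlinarith
  exact le_of_mul_le_mul_right r8 (by positivity)

lemma trace_pow_of_nilpotent {W : Type*} [AddCommGroup W] [Module ℂ W] [FiniteDimensional ℂ W]
    (M : Module.End ℂ W) (μ : ℂ) (h : IsNilpotent (M - algebraMap ℂ _ μ)) (m : ℕ) :
    LinearMap.trace ℂ W (M ^ m) = μ ^ m * (finrank ℂ W : ℂ) := by
  induction m with
  | zero => simp
  | succ m ih =>
    have hc : Commute (M ^ m) M := (Commute.refl M).pow_left m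
    have := LinearMap.trace_comp_eq_mul_of_commute_of_isNilpotent μ hc h
    rw [pow_succ, Module.End.mul_eq_comp, this, ih]
    ring

lemma re_mul_nat (z : ℂ) (n : ℕ) : (z * (n : ℂ)).re = z.re * n := by simp

/-- Lower bound for the trace of an even power, given that all non-real eigenvalues are small. -/
lemma trace_pow_lower (M : Module.End ℂ E) (θ : ℝ) (h0 : 0 ≤ θ)
    (hM : ∀ (μ : ℂ) (f : E), f ≠ 0 → M f = μ • f → μ.im ≠ 0 → ‖μ‖ ^ 2 ≤ θ) (k : ℕ) (c : ℝ)
    (hc : c = 0 ∨ ∃ f : E, f ≠ 0 ∧ M f = (c : ℂ) • f) :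
    (if c = 0 then 0 else c ^ (2 * k)) - finrank ℂ E * θ ^ k
      ≤ (LinearMap.trace ℂ E (M ^ (2 * k))).re := by
  classical
  have hds := DirectSum.isInternal_submodule_of_iSupIndep_of_iSup_eq_top
    M.independent_maxGenEigenspace M.iSup_maxGenEigenspace_eq_top
  have hfin : {μ | M.maxGenEigenspace μ ≠ ⊥}.Finite :=
    WellFoundedGT.finite_ne_bot_of_iSupIndep M.independent_maxGenEigenspace
  have hmap : ∀ (j : ℕ) μ, Set.MapsTo (M ^ j) ↑(M.maxGenEigenspace μ) ↑(M.maxGenEigenspace μ) :=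
    fun j μ => M.mapsTo_maxGenEigenspace_of_comm ((Commute.refl M).pow_right j) μ
  have key : ∀ j : ℕ, LinearMap.trace ℂ E (M ^ j) =
      ∑ μ ∈ hfin.toFinset, μ ^ j * (finrank ℂ (M.maxGenEigenspace μ) : ℂ) := by
    intro j
    rw [LinearMap.trace_eq_sum_trace_restrict' hds hfin (hmap j)]
    refine Finset.sum_congr rfl fun μ _ => ?_
    have hm1 : Set.MapsTo M ↑(M.maxGenEigenspace μ) ↑(M.maxGenEigenspace μ) :=
      M.mapsTo_maxGenEigenspace_of_comm (Commute.refl M) μ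
    have hn := M.isNilpotent_restrict_maxGenEigenspace_sub_algebraMap μ
    have hn' : IsNilpotent (M.restrict hm1 - algebraMap ℂ _ μ) := by
      convert hn using 1
      ext x
      simp [LinearMap.restrict_apply]
    have := trace_pow_of_nilpotent (M.restrict hm1) μ hn' j
    rw [← this, Module.End.pow_restrict]
  have hdim : (finrank ℂ E : ℝ) = ∑ μ ∈ hfin.toFinset, (finrank ℂ (M.maxGenEigenspace μ) : ℝ) := by
    have := key 0
    simp only [pow_zero, one_mul, LinearMap.trace_one] at this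
    exact_mod_cast this
  have hθ : 0 ≤ θ ^ k := pow_nonneg h0 k
  have hterm : ∀ μ ∈ hfin.toFinset, -θ ^ k ≤ (μ ^ (2 * k)).re := by
    intro μ hμ
    by_cases him : μ.im = 0
    · have : μ = (μ.re : ℂ) := by
        apply Complex.ext <;> simp [him]
      rw [this, ← Complex.ofReal_pow, Complex.ofReal_re]
      have : 0 ≤ μ.re ^ (2 * k) := by rw [pow_mul]; positivity
      linarith
    · have hμ' : M.maxGenEigenspace μ ≠ ⊥ := by simpa using hμ
      have hev : M.HasEigenvalue μ := by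
        rw [Module.End.maxGenEigenspace_eq] at hμ'
        exact Module.End.hasEigenvalue_of_hasGenEigenvalue hμ'
      obtain ⟨f, hf⟩ := hev.exists_hasEigenvector
      have h2 := hM μ f hf.2 hf.apply_eq_smul him
      have h3 : ‖μ ^ (2 * k)‖ ≤ θ ^ k := by
        rw [norm_pow, pow_mul]
        gcongr
      have := Complex.abs_re_le_norm (μ ^ (2 * k))
      linarith [neg_le_of_abs_le (this.trans h3)]
  rw [key, Complex.re_sum, hdim, Finset.sum_mul]
  have hsum : ∀ μ ∈ hfin.toFinset,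
      0 ≤ (μ ^ (2 * k) * (finrank ℂ (M.maxGenEigenspace μ) : ℂ)).re
        + (finrank ℂ (M.maxGenEigenspace μ) : ℝ) * θ ^ k := by
    intro μ hμ
    have := hterm μ hμ
    rw [re_mul_nat]
    have h5 : (0 : ℝ) ≤ finrank ℂ (M.maxGenEigenspace μ) := Nat.cast_nonneg _
    nlinarith
  rw [sub_le_iff_le_add, ← Finset.sum_add_distrib]
  split_ifs with hc0
  · exact Finset.sum_nonneg hsum
  · obtain ⟨f, hf, hfe⟩ := hc.resolve_left hc0
    have hmem : f ∈ M.maxGenEigenspace (c : ℂ) :=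
      Module.End.eigenspace_le_maxGenEigenspace (Module.End.mem_eigenspace_iff.2 hfe)
    have hne : M.maxGenEigenspace (c : ℂ) ≠ ⊥ := by
      intro h
      rw [h] at hmem
      exact hf hmem
    have hcm : (c : ℂ) ∈ hfin.toFinset := by simpa using hne
    refine le_trans ?_ (Finset.single_le_sum hsum hcm)
    have h1 : 1 ≤ finrank ℂ (M.maxGenEigenspace (c : ℂ)) := by
      rw [Nat.one_le_iff_ne_zero]
      intro h
      exact hne (Submodule.finrank_eq_zero.1 h)
    have h1' : (1 : ℝ) ≤ finrank ℂ (M.maxGenEigenspace (c : ℂ)) := by exact_mod_cast h1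
    rw [re_mul_nat, ← Complex.ofReal_pow, Complex.ofReal_re]
    have : 0 ≤ c ^ (2 * k) := by rw [pow_mul]; positivity
    nlinarith

omit [FiniteDimensional ℂ E] in
lemma eq_zero_of_psd (H : E →ₗ[ℂ] E) (hs : H.IsSymmetric) (hp : ∀ u, 0 ≤ (inner ℂ (H u) u).re)
    (u : E) (hu : (inner ℂ (H u) u).re ≤ 0) : H u = 0 := by
  set w := H u with hw
  have key : ∀ s : ℝ, 0 ≤ (inner ℂ (H w) w).re * (s * s) + (2 * ‖w‖ ^ 2) * s + 0 := by
    intro s
    have h1 := hp (u + (s : ℂ) • w)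
    have h2 : inner ℂ (H w) u = inner ℂ w w := by rw [hs w u]
    have h3 : (inner ℂ w w).re = ‖w‖ ^ 2 := by
      have := inner_self_eq_norm_sq (𝕜 := ℂ) w
      simpa using this
    have h4 : (inner ℂ (H w) w).im = 0 := Complex.conj_eq_iff_im.1 (hs.conj_inner_sym w w)
    have h5 : (inner ℂ w w).im = 0 := by
      have := inner_self_im (𝕜 := ℂ) w
      simpa using this
    simp only [map_add, map_smul, inner_add_left, inner_add_right, inner_smul_left,
      inner_smul_right, ← hw, h2, Complex.add_re, Complex.mul_re, Complex.ofReal_re,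
      Complex.ofReal_im, Complex.conj_ofReal, h3, h4, h5, Complex.mul_im, Complex.add_im] at h1
    nlinarith
  have := discrim_le_zero key
  simp only [discrim, mul_zero, sub_zero] at this
  have h6 : ‖w‖ ^ 2 = 0 := by nlinarith [sq_nonneg (‖w‖ ^ 2), sq_nonneg ‖w‖]
  simpa using h6

/-- The resolvent `(1 + t X)⁻¹` as a continuous linear map. -/
noncomputable def res (X : E →ₗ[ℂ] E) (t : ℝ) : E →L[ℂ] E :=
  Ring.inverse (1 + (t : ℂ) • LinearMap.toContinuousLinearMap X)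

lemma isUnit_res {θ : ℝ} {X : E →ₗ[ℂ] E} (hX : Hyp θ X) (h0 : 0 ≤ θ) (h1 : θ ≤ 1 / 20)
    {t : ℝ} (ht : t ∈ Set.Icc (0 : ℝ) 2) :
    IsUnit (1 + (t : ℂ) • LinearMap.toContinuousLinearMap X) := by
  have : CompleteSpace E := FiniteDimensional.complete ℂ E
  rw [ContinuousLinearMap.isUnit_iff_bijective]
  have hinj : Function.Injective (1 + (t : ℂ) • LinearMap.toContinuousLinearMap X : E →L[ℂ] E) := by
    rw [injective_iff_map_eq_zero]
    intro w hw
    have h2 := hX.lower h0 w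
    have h3 : (inner ℂ ((1 + (t : ℂ) • LinearMap.toContinuousLinearMap X : E →L[ℂ] E) w) w).re
        = ‖w‖ ^ 2 + t * (inner ℂ (X w) w).re := re_inner_add_smul t w (X w)
    rw [hw] at h3
    simp only [inner_zero_left, Complex.zero_re] at h3
    have h4 : ‖w‖ ^ 2 ≤ 0 := by
      have := mul_le_mul_of_nonneg_left h2 ht.1
      have h5 : t * θ ≤ 1 / 10 := by nlinarith [ht.1, ht.2]
      nlinarith [sq_nonneg ‖w‖]
    have : ‖w‖ ^ 2 = 0 := le_antisymm h4 (sq_nonneg _)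
    simpa using this
  refine ⟨hinj, ?_⟩
  exact LinearMap.injective_iff_surjective
    (f := ((1 + (t : ℂ) • LinearMap.toContinuousLinearMap X : E →L[ℂ] E) : E →ₗ[ℂ] E)).1 hinj

lemma res_spec {θ : ℝ} {X : E →ₗ[ℂ] E} (hX : Hyp θ X) (h0 : 0 ≤ θ) (h1 : θ ≤ 1 / 20)
    {t : ℝ} (ht : t ∈ Set.Icc (0 : ℝ) 2) (u : E) :
    res X t u + (t : ℂ) • X (res X t u) = u := by
  have := Ring.mul_inverse_cancel _ (isUnit_res hX h0 h1 ht)
  have h2 := congrArg (fun T : E →L[ℂ] E => T u) this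
  simpa [res] using h2

lemma res_symm {θ : ℝ} {X : E →ₗ[ℂ] E} (hX : Hyp θ X) (h0 : 0 ≤ θ) (h1 : θ ≤ 1 / 20)
    {t : ℝ} (ht : t ∈ Set.Icc (0 : ℝ) 2) (u w : E) :
    inner ℂ (res X t u) w = inner ℂ u (res X t w) := by
  have e1 := res_spec hX h0 h1 ht w
  have e2 := res_spec hX h0 h1 ht u
  generalize res X t w = a at e1 ⊢
  generalize res X t u = b at e2 ⊢
  rw [← e1, ← e2]
  simp only [inner_add_left, inner_add_right, inner_smul_left, inner_smul_right,
    Complex.conj_ofReal]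
  rw [hX.symm]

lemma res_continuousOn {θ : ℝ} {X : E →ₗ[ℂ] E} (hX : Hyp θ X) (h0 : 0 ≤ θ) (h1 : θ ≤ 1 / 20) :
    ContinuousOn (res X) (Set.Icc (0 : ℝ) 2) := by
  have : CompleteSpace E := FiniteDimensional.complete ℂ E
  intro t ht
  apply ContinuousAt.continuousWithinAt
  obtain ⟨x, hx⟩ := isUnit_res hX h0 h1 ht
  have h2 : ContinuousAt (fun t : ℝ => 1 + (t : ℂ) • LinearMap.toContinuousLinearMap X) t := by
    fun_prop
  have h3 := NormedRing.inverse_continuousAt x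
  rw [hx] at h3
  exact ContinuousAt.comp (f := fun t : ℝ => 1 + (t : ℂ) • LinearMap.toContinuousLinearMap X) h3 h2

lemma res_two_le {θ : ℝ} {X : E →ₗ[ℂ] E} (hX : Hyp θ X) (h0 : 0 ≤ θ) (h1 : θ ≤ 1 / 20)
    (f : E) (hf : ‖f‖ = 1) (ha : ‖X f - f‖ ≤ 1 / 10) :
    (inner ℂ (res X 2 f) f).re ≤ 1 / 2 := by
  have ht : (2 : ℝ) ∈ Set.Icc (0 : ℝ) 2 := by simp
  set w := res X 2 f with hw
  have h2 : w + ((2 : ℝ) : ℂ) • X w = f := res_spec hX h0 h1 ht f
  have h3 := hX.lower h0 w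
  have h4 : (inner ℂ f w).re = ‖w‖ ^ 2 + 2 * (inner ℂ (X w) w).re := by
    rw [← re_inner_add_smul, h2]
  have h5 := re_inner_le f w
  rw [hf] at h5
  have h6 : ‖w‖ ≤ 10 / 9 := by
    by_contra hc
    push Not at hc
    nlinarith [norm_nonneg w]
  have h7 : (inner ℂ f f).re = (inner ℂ w f).re + 2 * (inner ℂ w (X f)).re := by
    conv_lhs => rw [← h2]
    rw [inner_add_left, inner_smul_left, h2, hX.symm]
    simp
  have h8 : (inner ℂ f f).re = 1 := by
    rw [re_inner_self, hf]; norm_num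
  have h9 : (inner ℂ w (X f)).re = (inner ℂ w f).re + (inner ℂ w (X f - f)).re := by
    rw [inner_sub_right]; simp
  have h10 := neg_le_of_abs_le (abs_re_inner_le w (X f - f))
  have h11 : ‖w‖ * ‖X f - f‖ ≤ 10 / 9 * (1 / 10) := by gcongr
  linarith

/-- An approximately invariant vector produces a real eigenvalue `≥ 1/4` of `X Y`. -/
lemma exists_eigen {θ : ℝ} {X Y : E →ₗ[ℂ] E} (hX : Hyp θ X) (hY : Hyp θ Y) (h0 : 0 ≤ θ)
    (h1 : θ ≤ 1 / 20) (f : E) (hf : ‖f‖ = 1) (ha : ‖X f - f‖ ≤ 1 / 10)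
    (hb : ‖Y f - f‖ ≤ 1 / 10) :
    ∃ c : ℝ, 1 / 4 ≤ c ∧ ∃ g : E, g ≠ 0 ∧ X (Y g) = (c : ℂ) • g := by
  let H : ℝ → E →L[ℂ] E := fun t => res X t + res Y t - 1
  have hH : ∀ t u, H t u = res X t u + res Y t u - u := fun t u => rfl
  have hc : Continuous fun t : Set.Icc (0 : ℝ) 2 => H t := by
    have c1 := continuousOn_iff_continuous_domRestrict.1 (res_continuousOn hX h0 h1)
    have c2 := continuousOn_iff_continuous_domRestrict.1 (res_continuousOn hY h0 h1)
    exact (c1.add c2).sub continuous_const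
  let P : Set (Set.Icc (0 : ℝ) 2) := {t | ∀ u, 0 ≤ (inner ℂ (H t u) u).re}
  let Q : Set (Set.Icc (0 : ℝ) 2 × Metric.sphere (0 : E) 1) :=
    {z | (inner ℂ (H z.1 z.2) (z.2 : E)).re ≤ 0}
  have hP : IsClosed P := by
    have : P = ⋂ u, {t : Set.Icc (0 : ℝ) 2 | 0 ≤ (inner ℂ (H t u) u).re} := by
      ext t; simp [P]
    rw [this]
    refine isClosed_iInter fun u => isClosed_le continuous_const ?_
    exact Complex.continuous_re.comp ((hc.clm_apply continuous_const).inner continuous_const)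
  have hQ : IsClosed Q := by
    refine isClosed_le ?_ continuous_const
    have c3 : Continuous fun z : Set.Icc (0 : ℝ) 2 × Metric.sphere (0 : E) 1 => (z.2 : E) :=
      continuous_subtype_val.comp continuous_snd
    exact Complex.continuous_re.comp (((hc.comp continuous_fst).clm_apply c3).inner c3)
  have : ProperSpace E := FiniteDimensional.proper ℂ E
  have hQ' : IsClosed (Prod.fst '' Q) := isClosedMap_fst_of_compactSpace Q hQ
  have hcover : (Set.univ : Set (Set.Icc (0 : ℝ) 2)) ⊆ P ∪ Prod.fst '' Q := by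
    intro t _
    by_cases ht : t ∈ P
    · exact Or.inl ht
    · right
      simp only [P, Set.mem_ofPred_eq, not_forall, not_le] at ht
      obtain ⟨u, hu⟩ := ht
      have hu0 : u ≠ 0 := by
        rintro rfl
        simp at hu
      have hn : 0 < ‖u‖ := norm_pos_iff.2 hu0
      refine ⟨(t, ⟨((‖u‖⁻¹ : ℝ) : ℂ) • u, ?_⟩), ?_, rfl⟩
      · simp [norm_smul, hn.ne']
      · simp only [Q, Set.mem_ofPred_eq, map_smul, inner_smul_left, inner_smul_right,
          Complex.conj_ofReal, Complex.re_ofReal_mul]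
        have : 0 < ‖u‖⁻¹ := inv_pos.2 hn
        nlinarith [mul_pos this this]
  have hP0 : (Set.univ ∩ P).Nonempty := by
    refine ⟨⟨0, by simp⟩, trivial, fun u => ?_⟩
    have e1 := res_spec hX h0 h1 (t := 0) (by simp) u
    have e2 := res_spec hY h0 h1 (t := 0) (by simp) u
    simp only [Complex.ofReal_zero, zero_smul, add_zero] at e1 e2
    rw [hH, e1, e2, add_sub_cancel_right]
    have := inner_self_nonneg (𝕜 := ℂ) (x := u)
    simpa using this
  have hQ0 : (Set.univ ∩ Prod.fst '' Q).Nonempty := by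
    refine ⟨⟨2, by simp⟩, trivial, (⟨2, by simp⟩, ⟨f, by simpa using hf⟩), ?_, rfl⟩
    simp only [Q, Set.mem_ofPred_eq, hH, inner_sub_left, inner_add_left, Complex.sub_re,
      Complex.add_re]
    have e1 := res_two_le hX h0 h1 f hf ha
    have e2 := res_two_le hY h0 h1 f hf hb
    have h8 : (inner ℂ f f).re = 1 := by
      rw [re_inner_self, hf]; norm_num
    linarith
  have : PreconnectedSpace (Set.Icc (0 : ℝ) 2) := Subtype.preconnectedSpace isPreconnected_Icc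
  obtain ⟨t, -, htP, ⟨z, hz, rfl⟩⟩ :=
    isPreconnected_closed_iff.1 isPreconnected_univ P _ hP hQ' hcover hP0 hQ0
  obtain ⟨⟨t, ht⟩, ⟨u, hu⟩⟩ := z
  have hs : (H t : E →ₗ[ℂ] E).IsSymmetric := by
    intro a b
    simp only [ContinuousLinearMap.coe_coe, hH, inner_sub_left, inner_add_left, inner_sub_right,
      inner_add_right, res_symm hX h0 h1 ht, res_symm hY h0 h1 ht]
  have hz0 : H t u = 0 := eq_zero_of_psd (H t : E →ₗ[ℂ] E) hs htP u hz
  have hu0 : u ≠ 0 := by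
    rintro rfl
    simp at hu
  have e1 := res_spec hX h0 h1 ht u
  have e2 := res_spec hY h0 h1 ht u
  rw [hH] at hz0
  set a := res X t u
  set b := res Y t u
  have e3 : (t : ℂ) • X a = b := by linear_combination (norm := module) e1 - hz0
  have e4 : (t : ℂ) • Y b = a := by linear_combination (norm := module) e2 - hz0
  have hb0 : b ≠ 0 := by
    intro h
    rw [h] at e4 hz0
    simp only [map_zero, smul_zero] at e4
    rw [← e4] at hz0
    exact hu0 (by simpa using hz0)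
  have ht0 : t ≠ 0 := by
    rintro rfl
    exact hb0 (by simpa using e3.symm)
  have htp : 0 < t := lt_of_le_of_ne ht.1 ht0.symm
  refine ⟨1 / t ^ 2, ?_, b, hb0, ?_⟩
  · apply one_div_le_one_div_of_le (by positivity)
    nlinarith [ht.2]
  · have : (t : ℂ) ≠ 0 := by exact_mod_cast ht0
    rw [← e4, map_smul, smul_smul] at e3
    conv_rhs => rw [← e3]
    rw [smul_smul]
    push_cast
    rw [show 1 / (t : ℂ) ^ 2 * (t * t) = 1 by field_simp, one_smul]

/-- The trace of an even power of `X Y` is never very negative. -/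
theorem trace_ge {θ : ℝ} {X Y : E →ₗ[ℂ] E} (hX : Hyp θ X) (hY : Hyp θ Y) (h0 : 0 ≤ θ)
    (h1 : θ ≤ 1 / 20) (k : ℕ) :
    0 ≤ (LinearMap.trace ℂ E ((X * Y : Module.End ℂ E) ^ (2 * k))).re + finrank ℂ E * θ ^ k := by
  have := trace_pow_lower (X * Y : Module.End ℂ E) θ h0
    (fun μ f hf he him => nonreal_small hX hY h0 (by linarith) hf he him) k 0 (Or.inl rfl)
  simp only [if_true] at this
  linarith

/-- With an approximately invariant vector the trace is at least `16 ^ (-k)`, up to the error. -/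
theorem trace_ge_of_approx {θ : ℝ} {X Y : E →ₗ[ℂ] E} (hX : Hyp θ X) (hY : Hyp θ Y) (h0 : 0 ≤ θ)
    (h1 : θ ≤ 1 / 20) (k : ℕ) (f : E) (hf : ‖f‖ = 1) (ha : ‖X f - f‖ ≤ 1 / 10)
    (hb : ‖Y f - f‖ ≤ 1 / 10) :
    (1 / 16) ^ k ≤
      (LinearMap.trace ℂ E ((X * Y : Module.End ℂ E) ^ (2 * k))).re + finrank ℂ E * θ ^ k := by
  obtain ⟨c, hc, g, hg, he⟩ := exists_eigen hX hY h0 h1 f hf ha hb
  have := trace_pow_lower (X * Y : Module.End ℂ E) θ h0
    (fun μ f hf he him => nonreal_small hX hY h0 (by linarith) hf he him) k c (Or.inr ⟨g, hg, he⟩)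
  rw [if_neg (by linarith)] at this
  have h2 : (1 / 16 : ℝ) ^ k ≤ c ^ (2 * k) := by
    rw [pow_mul]
    gcongr
    nlinarith
  linarith

end Pool.Agent.P.MP_c21a16_pr
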