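import Mathlib
import Pool.Agent.P.MP_c21a16_pr.Spectral

/-!
Permutation operators and centred Fejer kernels.
-/

namespace Pool.Agent.P.MP_c21a16_pr

open Module Finset

variable {G Ω : Type*} [Group G] [MulAction G Ω] [Fintype Ω]

/-- The permutation representation on functions. -/
noncomputable def U (Ω : Type*) [MulAction G Ω] : G →* Module.End ℂ (EuclideanSpace ℂ Ω) where
  toFun g :=
    { toFun := fun φ => WithLp.toLp 2 fun v => φ (g⁻¹ • v)
      map_add' := fun _ _ => rfl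
      map_smul' := fun _ _ => rfl }
  map_one' := by ext φ v; simp
  map_mul' g h := by ext φ v; simp [mul_smul]

omit [Fintype Ω] in
@[simp] lemma U_apply (g : G) (φ : EuclideanSpace ℂ Ω) (v : Ω) : U Ω g φ v = φ (g⁻¹ • v) := rfl

lemma inner_U (g : G) (φ ψ : EuclideanSpace ℂ Ω) :
    inner ℂ (U Ω g φ) ψ = inner ℂ φ (U Ω g⁻¹ ψ) := by
  simp only [PiLp.inner_apply, U_apply, inv_inv]
  exact Fintype.sum_equiv (MulAction.toPerm g⁻¹) _ _ fun v => by simp

lemma norm_U (g : G) (φ : EuclideanSpace ℂ Ω) : ‖U Ω g φ‖ = ‖φ‖ := by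
  simp only [EuclideanSpace.norm_eq, U_apply]
  congr 1
  exact Fintype.sum_equiv (MulAction.toPerm g⁻¹) _ _ fun v => by simp

lemma trace_U [DecidableEq Ω] (g : G) :
    LinearMap.trace ℂ _ (U Ω g) = (#{v : Ω | g • v = v} : ℕ) := by
  rw [LinearMap.trace_eq_matrix_trace ℂ (EuclideanSpace.basisFun Ω ℂ).toBasis, Matrix.trace,
    card_filter]
  push_cast
  refine sum_congr rfl fun v _ => ?_
  simp only [Matrix.diag_apply, LinearMap.toMatrix_apply, OrthonormalBasis.coe_toBasis,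
    EuclideanSpace.basisFun_apply, OrthonormalBasis.coe_toBasis_repr_apply,
    EuclideanSpace.basisFun_repr, U_apply, PiLp.single_apply, inv_smul_eq_iff]
  simp only [eq_comm]

/-- The projection onto constants. -/
noncomputable def J (Ω : Type*) [Fintype Ω] : Module.End ℂ (EuclideanSpace ℂ Ω) where
  toFun φ := WithLp.toLp 2 fun _ => (∑ w, φ w) / Fintype.card Ω
  map_add' φ ψ := by ext v; simp [sum_add_distrib, add_div]
  map_smul' c φ := by ext v; simp [← mul_sum, mul_div_assoc]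

@[simp] lemma J_apply (φ : EuclideanSpace ℂ Ω) (v : Ω) :
    J Ω φ v = (∑ w, φ w) / Fintype.card Ω := rfl

lemma U_mul_J (g : G) : U Ω g * J Ω = J Ω := by ext φ v; simp

lemma J_mul_U (g : G) : J Ω * U Ω g = J Ω := by
  ext φ v
  simp only [End.mul_apply, J_apply, U_apply]
  congr 1
  exact Fintype.sum_equiv (MulAction.toPerm g⁻¹) _ _ fun v => by simp

lemma J_mul_J [Nonempty Ω] : J Ω * J Ω = J Ω := by
  ext φ v
  have : (Fintype.card Ω : ℂ) ≠ 0 := by exact_mod_cast Fintype.card_ne_zero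
  simp only [End.mul_apply, J_apply, sum_const, card_univ, nsmul_eq_mul]
  field_simp

lemma J_symm : (J Ω).IsSymmetric := by
  intro φ ψ
  simp only [PiLp.inner_apply, J_apply, RCLike.inner_apply, map_div₀, map_sum, map_natCast]
  rw [← sum_mul, ← mul_sum]
  ring

lemma trace_J [Nonempty Ω] : LinearMap.trace ℂ _ (J Ω) = 1 := by
  classical
  have : (Fintype.card Ω : ℂ) ≠ 0 := by exact_mod_cast Fintype.card_ne_zero
  rw [LinearMap.trace_eq_matrix_trace ℂ (EuclideanSpace.basisFun Ω ℂ).toBasis, Matrix.trace]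
  simp only [Matrix.diag_apply, LinearMap.toMatrix_apply, OrthonormalBasis.coe_toBasis,
    EuclideanSpace.basisFun_apply, OrthonormalBasis.coe_toBasis_repr_apply,
    EuclideanSpace.basisFun_repr, J_apply, PiLp.single_apply, sum_ite_eq', mem_univ, if_true,
    sum_const, card_univ, nsmul_eq_mul]
  field_simp

/-- Letters: ordered pairs of distinct indices. -/
abbrev Let (L : ℕ) := {z : Fin L × Fin L // z.1 ≠ z.2}

/-- The exponent of a letter. -/
def ex {L : ℕ} (z : Let L) : ℤ := 2 * ((z.1.2 : ℤ) - z.1.1)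

lemma ex_ne {L : ℕ} (z : Let L) : ex z ≠ 0 := by
  have := z.2
  have h : (z.1.1 : ℕ) ≠ z.1.2 := fun h => this (Fin.ext h)
  unfold ex
  omega

lemma abs_ex_le {L : ℕ} (z : Let L) : |ex z| ≤ 2 * L := by
  have h1 := z.1.1.2
  have h2 := z.1.2.2
  unfold ex
  rw [abs_le]
  omega

lemma card_let (L : ℕ) : (Fintype.card (Let L) : ℂ) = L ^ 2 - L := by
  have h : Fintype.card (Let L) = #(univ : Finset (Fin L)).offDiag := by
    rw [Fintype.card_subtype]
    congr 1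
    ext z
    simp
  rw [h, offDiag_card, Nat.cast_sub (by simp; exact Nat.le_mul_self L)]
  simp [sq]

/-- The centred Fejer kernel in the even powers of `C`. -/
noncomputable def X (Ω : Type*) [MulAction G Ω] (L : ℕ) (C : G) :
    Module.End ℂ (EuclideanSpace ℂ Ω) :=
  ((L : ℂ) ^ 2)⁻¹ • ∑ z : Let L, U Ω (C ^ ex z)

/-- The averages of even powers. -/
noncomputable def Av (Ω : Type*) [MulAction G Ω] (L : ℕ) (C : G) :
    Module.End ℂ (EuclideanSpace ℂ Ω) :=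
  (L : ℂ)⁻¹ • ∑ i : Fin L, U Ω (C ^ (2 * (i : ℤ)))

omit [Fintype Ω] in
lemma Av_mul_Av {L : ℕ} (hL : 0 < L) (C : G) :
    Av Ω L C⁻¹ * Av Ω L C = X Ω L C + (L : ℂ)⁻¹ • 1 := by
  have hL' : (L : ℂ) ≠ 0 := by exact_mod_cast hL.ne'
  have h1 : ∀ z : Fin L × Fin L, U Ω (C⁻¹ ^ (2 * (z.1 : ℤ))) * U Ω (C ^ (2 * (z.2 : ℤ))) =
      U Ω (C ^ (2 * ((z.2 : ℤ) - z.1))) := by
    intro z
    rw [← map_mul, inv_zpow', ← zpow_add]
    congr 2
    ring
  unfold Av X
  rw [smul_mul_smul_comm, sum_mul_sum, ← Fintype.sum_prod_type']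
  simp_rw [h1]
  rw [← Fintype.sum_subtype_add_sum_subtype (fun z : Fin L × Fin L => z.1 ≠ z.2), smul_add]
  congr 1
  · rw [sq, mul_inv]
    rfl
  · have h2 : ∀ z : {z : Fin L × Fin L // ¬ z.1 ≠ z.2},
        U Ω (C ^ (2 * ((z.1.2 : ℤ) - z.1.1))) = 1 := by
      intro z
      have : z.1.1 = z.1.2 := not_not.1 z.2
      simp [this]
    have h3 : Fintype.card {z : Fin L × Fin L // ¬ z.1 ≠ z.2} = L := by
      rw [Fintype.card_subtype]
      have : (univ.filter fun z : Fin L × Fin L => ¬ z.1 ≠ z.2) = (univ : Finset (Fin L)).diag := by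
        ext z
        simp
      rw [this, diag_card]
      simp
    simp_rw [h2]
    rw [sum_const, card_univ, h3, ← Nat.cast_smul_eq_nsmul ℂ, smul_smul]
    congr 1
    field_simp

lemma inner_Av (L : ℕ) (C : G) (φ ψ : EuclideanSpace ℂ Ω) :
    inner ℂ (Av Ω L C⁻¹ φ) ψ = inner ℂ φ (Av Ω L C ψ) := by
  simp only [Av, LinearMap.smul_apply, LinearMap.sum_apply, inner_smul_left, inner_smul_right,
    sum_inner, inner_sum, inner_U, inv_zpow, inv_inv, map_inv₀, map_natCast]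

lemma norm_Av_le {L : ℕ} (hL : 0 < L) (C : G) (φ : EuclideanSpace ℂ Ω) : ‖Av Ω L C φ‖ ≤ ‖φ‖ := by
  have hL' : (0 : ℝ) < L := by exact_mod_cast hL
  simp only [Av, LinearMap.smul_apply, LinearMap.sum_apply, norm_smul, norm_inv,
    Complex.norm_natCast]
  have := norm_sum_le univ fun i : Fin L => U Ω (C ^ (2 * (i : ℤ))) φ
  simp only [norm_U, sum_const, card_univ, Fintype.card_fin, nsmul_eq_mul] at this
  rw [inv_mul_le_iff₀ hL']
  exact this

lemma hyp_X {L : ℕ} (hL : 2 ≤ L) (C : G) : Hyp (L : ℝ)⁻¹ (X Ω L C) := by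
  have hL0 : 0 < L := by omega
  have hX : ∀ φ, X Ω L C φ = Av Ω L C⁻¹ (Av Ω L C φ) - (((L : ℝ)⁻¹ : ℝ) : ℂ) • φ := by
    intro φ
    have := congrArg (fun T : Module.End ℂ (EuclideanSpace ℂ Ω) => T φ) (Av_mul_Av hL0 C)
    simp only [End.mul_apply, LinearMap.add_apply, LinearMap.smul_apply, End.one_apply] at this
    rw [this]
    simp
  constructor
  · intro φ ψ
    have := inner_Av L C⁻¹ φ (Av Ω L C ψ)
    rw [inv_inv] at this
    simp only [hX, inner_sub_left, inner_sub_right, inner_smul_left, inner_smul_right,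
      Complex.conj_ofReal, inner_Av, this]
  · intro φ
    set θ : ℝ := (L : ℝ)⁻¹
    have h0 : 0 ≤ θ := by positivity
    have h1 : θ ≤ 1 / 2 := by
      have : (2 : ℝ) ≤ L := by exact_mod_cast hL
      rw [one_div]
      exact inv_anti₀ (by norm_num) this
    have h2 : (inner ℂ (Av Ω L C⁻¹ (Av Ω L C φ)) φ).re = ‖Av Ω L C φ‖ ^ 2 := by
      rw [inner_Av, re_inner_self]
    have h3 : ‖Av Ω L C⁻¹ (Av Ω L C φ)‖ ^ 2 ≤ ‖Av Ω L C φ‖ ^ 2 := by
      gcongr
      exact norm_Av_le hL0 _ _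
    rw [hX, norm_sub_sq (𝕜 := ℂ), inner_sub_left, inner_smul_left, inner_smul_right]
    simp only [RCLike.re_to_complex, Complex.re_ofReal_mul, Complex.conj_ofReal, Complex.sub_re,
      h2, re_inner_self, norm_smul, Complex.norm_real, Real.norm_eq_abs, abs_of_nonneg h0]
    nlinarith [sq_nonneg ‖Av Ω L C φ‖, mul_nonneg h0 (sq_nonneg ‖Av Ω L C φ‖)]

lemma X_mul_J {L : ℕ} (hL : 0 < L) (C : G) : X Ω L C * J Ω = (1 - (L : ℂ)⁻¹) • J Ω := by
  have hL' : (L : ℂ) ≠ 0 := by exact_mod_cast hL.ne'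
  unfold X
  rw [smul_mul_assoc, sum_mul]
  simp_rw [U_mul_J]
  rw [sum_const, card_univ, ← Nat.cast_smul_eq_nsmul ℂ, smul_smul, card_let]
  congr 1
  field_simp

lemma J_mul_X {L : ℕ} (hL : 0 < L) (C : G) : J Ω * X Ω L C = (1 - (L : ℂ)⁻¹) • J Ω := by
  have hL' : (L : ℂ) ≠ 0 := by exact_mod_cast hL.ne'
  unfold X
  rw [mul_smul_comm, mul_sum]
  simp_rw [J_mul_U]
  rw [sum_const, card_univ, ← Nat.cast_smul_eq_nsmul ℂ, smul_smul, card_let]
  congr 1
  field_simp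

/-- The kernel restricted to functions of mean zero. -/
noncomputable def Xt (Ω : Type*) [MulAction G Ω] [Fintype Ω] (L : ℕ) (C : G) :
    Module.End ℂ (EuclideanSpace ℂ Ω) :=
  X Ω L C * (1 - J Ω)

lemma hyp_Xt [Nonempty Ω] {L : ℕ} (hL : 2 ≤ L) (C : G) : Hyp (L : ℝ)⁻¹ (Xt Ω L C) := by
  have hL0 : 0 < L := by omega
  have h := hyp_X (Ω := Ω) hL C
  have hc : Xt Ω L C = (1 - J Ω) * X Ω L C := by
    unfold Xt
    rw [mul_sub, sub_mul, X_mul_J hL0, J_mul_X hL0, mul_one, one_mul]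
  have hP : (1 - J Ω : Module.End ℂ (EuclideanSpace ℂ Ω)).IsSymmetric :=
    LinearMap.IsSymmetric.sub LinearMap.IsSymmetric.id J_symm
  have hPP : (1 - J Ω) * (1 - J Ω) = 1 - J Ω := by
    rw [mul_sub, sub_mul, sub_mul, J_mul_J]
    simp
  constructor
  · intro φ ψ
    conv_rhs => rw [hc]
    unfold Xt
    rw [End.mul_apply, End.mul_apply, h.symm, hP]
  · intro φ
    have h1 := h.quad ((1 - J Ω) φ)
    have h2 : inner ℂ (X Ω L C ((1 - J Ω) φ)) ((1 - J Ω) φ) = inner ℂ (Xt Ω L C φ) φ := by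
      rw [← hP, ← End.mul_apply (1 - J Ω), ← hc]
      unfold Xt
      rw [← End.mul_apply, mul_assoc, hPP]
    have h3 : ‖(1 - J Ω) φ‖ ^ 2 ≤ ‖φ‖ ^ 2 := by
      have e1 : ‖(1 - J Ω) φ‖ ^ 2 = (inner ℂ ((1 - J Ω) φ) φ).re := by
        rw [← re_inner_self, ← hP, ← End.mul_apply, hPP]
      have e2 := re_inner_le ((1 - J Ω) φ) φ
      have e3 := norm_nonneg ((1 - J Ω) φ)
      have e4 := norm_nonneg φ
      nlinarith [sq_nonneg (‖(1 - J Ω) φ‖ - ‖φ‖)]
    rw [h2] at h1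
    have h0 : 0 ≤ (L : ℝ)⁻¹ := by positivity
    have h4 := mul_le_mul_of_nonneg_left h3 h0
    exact h1.trans (by linarith)

lemma Xt_pow [Nonempty Ω] {L : ℕ} (hL : 0 < L) (C D : G) (m : ℕ) :
    (Xt Ω L C * Xt Ω L D) ^ (m + 1) =
      (X Ω L C * X Ω L D) ^ (m + 1) - ((1 - (L : ℂ)⁻¹) ^ 2) ^ (m + 1) • J Ω := by
  have h1 : Xt Ω L C * Xt Ω L D = X Ω L C * X Ω L D - (1 - (L : ℂ)⁻¹) ^ 2 • J Ω := by
    have e : ∀ C : G, Xt Ω L C = X Ω L C - (1 - (L : ℂ)⁻¹) • J Ω := by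
      intro C
      unfold Xt
      rw [mul_sub, mul_one, X_mul_J hL]
    simp only [e, mul_sub, sub_mul, X_mul_J hL, J_mul_X hL, mul_smul_comm, smul_mul_assoc,
      J_mul_J, smul_smul]
    module
  have h2 : X Ω L C * X Ω L D * J Ω = (1 - (L : ℂ)⁻¹) ^ 2 • J Ω := by
    rw [mul_assoc, X_mul_J hL, mul_smul_comm, X_mul_J hL, smul_smul, sq]
  have h3 : J Ω * (X Ω L C * X Ω L D) = (1 - (L : ℂ)⁻¹) ^ 2 • J Ω := by
    rw [← mul_assoc, J_mul_X hL, smul_mul_assoc, J_mul_X hL, smul_smul, sq]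
  rw [h1]
  generalize X Ω L C * X Ω L D = M at *
  generalize (1 - (L : ℂ)⁻¹) ^ 2 = c at *
  have h4 : ∀ k : ℕ, M ^ k * J Ω = c ^ k • J Ω := by
    intro k
    induction k with
    | zero => simp
    | succ k ih => rw [pow_succ, mul_assoc, h2, mul_smul_comm, ih, smul_smul, pow_succ']
  induction m with
  | zero => simp
  | succ m ih =>
    rw [pow_succ, ih]
    simp only [mul_sub, sub_mul, mul_smul_comm, smul_mul_assoc, h3, h4, J_mul_J, smul_smul,
      ← pow_succ]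
    module

lemma norm_U_pow_sub (g : G) (φ : EuclideanSpace ℂ Ω) (n : ℕ) :
    ‖U Ω (g ^ n) φ - φ‖ ≤ n * ‖U Ω g φ - φ‖ := by
  induction n with
  | zero => simp
  | succ n ih =>
    have : U Ω (g ^ (n + 1)) φ - φ = U Ω g (U Ω (g ^ n) φ - φ) + (U Ω g φ - φ) := by
      rw [pow_succ', map_mul, End.mul_apply, map_sub]
      abel
    rw [this]
    refine (norm_add_le _ _).trans ?_
    rw [norm_U]
    push_cast
    linarith

lemma norm_U_zpow_sub (g : G) (φ : EuclideanSpace ℂ Ω) (n : ℤ) :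
    ‖U Ω (g ^ n) φ - φ‖ ≤ |n| * ‖U Ω g φ - φ‖ := by
  obtain ⟨k, rfl | rfl⟩ := n.eq_nat_or_neg
  · simpa using norm_U_pow_sub g φ k
  · have h1 : U Ω (g ^ k) (U Ω (g ^ (-(k : ℤ))) φ - φ) = -(U Ω (g ^ k) φ - φ) := by
      rw [map_sub, ← End.mul_apply, ← map_mul]
      simp
    rw [← norm_U (g ^ k), h1, norm_neg]
    simpa using norm_U_pow_sub g φ k

lemma norm_Xt_sub {L : ℕ} (hL : 0 < L) (C : G) (φ : EuclideanSpace ℂ Ω) (hφ : ∑ v, φ v = 0) :
    ‖Xt Ω L C φ - φ‖ ≤ L * ‖U Ω (C ^ 2) φ - φ‖ + (L : ℝ)⁻¹ * ‖φ‖ := by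
  have hL' : (L : ℂ) ≠ 0 := by exact_mod_cast hL.ne'
  have hL'' : (0 : ℝ) < L := by exact_mod_cast hL
  have hJ : J Ω φ = 0 := by ext v; simp [hφ]
  have h1 : Xt Ω L C φ - φ =
      ((L : ℂ) ^ 2)⁻¹ • ∑ z : Let L, (U Ω (C ^ ex z) φ - φ) - (L : ℂ)⁻¹ • φ := by
    unfold Xt X
    rw [End.mul_apply, LinearMap.sub_apply, hJ, End.one_apply, sub_zero, LinearMap.smul_apply,
      LinearMap.sum_apply, sum_sub_distrib, sum_const, card_univ, ← Nat.cast_smul_eq_nsmul ℂ,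
      card_let, smul_sub, smul_smul, sub_sub, ← add_smul]
    congr 1
    rw [show ((L : ℂ) ^ 2)⁻¹ * (L ^ 2 - L) + (L : ℂ)⁻¹ = 1 by field_simp; ring, one_smul]
  rw [h1]
  refine (norm_sub_le _ _).trans (add_le_add ?_ (by simp [norm_smul]))
  have h2 : ∀ z : Let L, ‖U Ω (C ^ ex z) φ - φ‖ ≤ L * ‖U Ω (C ^ 2) φ - φ‖ := by
    intro z
    have e1 : C ^ ex z = (C ^ 2) ^ ((z.1.2 : ℤ) - z.1.1) := by
      rw [ex, zpow_mul, zpow_ofNat]
    rw [e1]
    refine (norm_U_zpow_sub _ _ _).trans (mul_le_mul_of_nonneg_right ?_ (norm_nonneg _))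
    have a1 := z.1.1.2
    have a2 := z.1.2.2
    have : |(z.1.2 : ℤ) - z.1.1| ≤ L := by rw [abs_le]; omega
    exact_mod_cast this
  have h3 := (norm_sum_le univ fun z : Let L => U Ω (C ^ ex z) φ - φ).trans
    (sum_le_sum fun z _ => h2 z)
  have h4 : (Fintype.card (Let L) : ℝ) ≤ L ^ 2 := by
    have := Fintype.card_subtype_le fun z : Fin L × Fin L => z.1 ≠ z.2
    simp only [Fintype.card_prod, Fintype.card_fin, ← sq] at this
    exact_mod_cast this
  rw [sum_const, card_univ, nsmul_eq_mul] at h3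
  rw [norm_smul, norm_inv, norm_pow, Complex.norm_natCast, inv_mul_le_iff₀ (by positivity)]
  exact h3.trans (by gcongr)

end Pool.Agent.P.MP_c21a16_pr
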