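import Mathlib
import Pool.Agent.P.MP_c21a16_pr.Fix
import Pool.Agent.P.MP_c21a16_pr.Ops

/-!
The trace of `(X Y) ^ m` and its average over conjugation.
-/

namespace Pool.Agent.P.MP_c21a16_pr

open Module Finset

variable {K V : Type*} [Field K] [AddCommGroup V] [Module K V]

/-- Nonzero vectors. -/
abbrev NZ (V : Type*) [Zero V] := {v : V // v ≠ 0}

instance actNZ : MulAction (V ≃ₗ[K] V) (NZ V) where
  smul g v := ⟨g v.1, by simpa using v.2⟩
  one_smul _ := rfl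
  mul_smul _ _ _ := rfl

lemma smul_val (g : V ≃ₗ[K] V) (v : NZ V) : (g • v).1 = g v.1 := rfl

lemma wd_congr (C : ℕ → V ≃ₗ[K] V) {e e' : ℕ → ℤ} {k : ℕ} (h : ∀ s < k, e s = e' s) :
    wd C e k = wd C e' k := by
  induction k with
  | zero => rfl
  | succ k ih => simp only [wd, h k (by omega), ih fun s hs => h s (by omega)]

/-- Exponents of a finite word, extended by zero. -/
def ext0 {L k : ℕ} (w : Fin k → Let L) (s : ℕ) : ℤ := if h : s < k then ex (w ⟨s, h⟩) else 0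

/-- Exponents of a finite word, extended periodically. -/
def pe {L k : ℕ} (hk : 0 < k) (w : Fin k → Let L) (s : ℕ) : ℤ := ex (w ⟨s % k, Nat.mod_lt _ hk⟩)

/-- The product of the kernels. -/
noncomputable def prodX (L : ℕ) (C : ℕ → V ≃ₗ[K] V) : ℕ → Module.End ℂ (EuclideanSpace ℂ (NZ V))
  | 0 => 1
  | s + 1 => X (NZ V) L (C s) * prodX L C s

lemma prodX_eq (L : ℕ) (C : ℕ → V ≃ₗ[K] V) (k : ℕ) :
    prodX L C k = (((L : ℂ) ^ 2)⁻¹) ^ k • ∑ w : Fin k → Let L, U (NZ V) (wd C (ext0 w) k) := by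
  induction k with
  | zero => simp [prodX, wd]
  | succ k ih =>
    rw [prodX, ih, X, smul_mul_smul_comm, sum_mul_sum, ← Fintype.sum_prod_type', pow_succ' _ k]
    refine congrArg _ ?_
    refine Fintype.sum_equiv (Fin.snocEquiv fun _ => Let L) _ _ fun z => ?_
    rw [← map_mul, wd]
    congr 2
    · congr 1
      simp [ext0, Fin.snocEquiv, show (⟨k, k.lt_succ_self⟩ : Fin (k + 1)) = Fin.last k from rfl]
    · refine wd_congr C fun s hs => ?_
      unfold ext0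
      rw [dif_pos hs, dif_pos (hs.trans k.lt_succ_self)]
      exact congrArg ex (Fin.snoc_castSucc (α := fun _ => Let L) z.1 z.2 ⟨s, hs⟩).symm

lemma prodX_Ms (L : ℕ) (A B : V ≃ₗ[K] V) (m : ℕ) :
    prodX L (Ms A B) (2 * m) = (X (NZ V) L A * X (NZ V) L B) ^ m := by
  induction m with
  | zero => simp [prodX]
  | succ m ih =>
    rw [mul_add, mul_one, prodX, prodX, ih, pow_succ', mul_assoc]
    have h1 : Ms A B (2 * m) = B := by simp [Ms]
    have h2 : Ms A B (2 * m + 1) = A := by simp [Ms]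
    rw [h1, h2]

open Classical in
lemma trace_eq [Fintype V] (L : ℕ) (A B : V ≃ₗ[K] V) {m : ℕ} (hm : 0 < 2 * m) :
    (LinearMap.trace ℂ _ ((X (NZ V) L A * X (NZ V) L B) ^ m)).re =
      (((L : ℝ) ^ 2)⁻¹) ^ (2 * m) * ∑ w : Fin (2 * m) → Let L,
        (#{v : V | v ≠ 0 ∧ wd (Ms A B) (pe hm w) (2 * m) v = v} : ℝ) := by
  rw [← prodX_Ms, prodX_eq, map_smul, map_sum]
  have h1 : ∀ w : Fin (2 * m) → Let L,
      LinearMap.trace ℂ _ (U (NZ V) (wd (Ms A B) (ext0 w) (2 * m))) =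
      ((#{v : V | v ≠ 0 ∧ wd (Ms A B) (pe hm w) (2 * m) v = v} : ℝ) : ℂ) := by
    intro w
    have e1 : wd (Ms A B) (ext0 w) (2 * m) = wd (Ms A B) (pe hm w) (2 * m) := by
      refine wd_congr _ fun s hs => ?_
      simp [ext0, pe, hs, Nat.mod_eq_of_lt hs]
    rw [trace_U, e1]
    push_cast
    congr 1
    refine card_bij (fun v _ => v.1) ?_ (fun a _ b _ h => Subtype.ext h) ?_
    · intro v hv
      simp only [mem_filter, mem_univ, true_and] at hv ⊢
      exact ⟨v.2, congrArg Subtype.val hv⟩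
    · intro v hv
      simp only [mem_filter, mem_univ, true_and] at hv ⊢
      exact ⟨⟨v, hv.1⟩, Subtype.ext hv.2, rfl⟩
  simp_rw [h1]
  rw [← Complex.ofReal_sum, smul_eq_mul, ← Complex.ofReal_natCast, ← Complex.ofReal_pow,
    ← Complex.ofReal_inv, ← Complex.ofReal_pow, ← Complex.ofReal_mul, Complex.ofReal_re]

lemma pe_periodic {L k : ℕ} (hk : 0 < k) (w : Fin k → Let L) (s : ℕ) :
    pe hk w (s + k) = pe hk w s := by simp [pe]

open Classical in
lemma card_periodic {L m : ℕ} (hm : 0 < 2 * m) :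
    #{w : Fin (2 * m) → Let L | ∃ t, 0 < t ∧ t < 2 * m ∧ ∀ s, pe hm w (s + t) = pe hm w s}
      ≤ m * L ^ (3 * m) := by
  have h1 : (univ.filter fun w : Fin (2 * m) → Let L =>
      ∃ t, 0 < t ∧ t < 2 * m ∧ ∀ s, pe hm w (s + t) = pe hm w s) ⊆
      (Ioc 0 m).biUnion fun h => {w | ∀ s, pe hm w (s + h) = pe hm w s} := by
    intro w hw
    simp only [mem_filter, mem_univ, true_and, mem_biUnion, mem_Ioc] at hw ⊢
    obtain ⟨t, h0, h1, h2⟩ := hw
    by_cases ht : t ≤ m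
    · exact ⟨t, ⟨h0, ht⟩, h2⟩
    · refine ⟨2 * m - t, ⟨by omega, by omega⟩, fun s => ?_⟩
      rw [← h2, ← pe_periodic hm w s]
      congr 1
      omega
  refine (card_le_card h1).trans ((card_biUnion_le_card_mul _ _ (L ^ (3 * m)) ?_).trans (by simp))
  intro h hh
  simp only [mem_Ioc] at hh
  refine (card_le_card_of_injOn (t := univ) (fun w : Fin (2 * m) → Let L =>
    ((fun i => (w i).1.1, fun i : Fin m => (w (Fin.castLE (by omega) i)).1.2) :
      (Fin (2 * m) → Fin L) × (Fin m → Fin L))) (fun _ _ => by simp) ?_).trans ?_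
  · intro w hw w' hw' he
    simp only [coe_filter, mem_univ, true_and, Set.mem_ofPred_eq, Prod.mk.injEq] at hw hw' he
    ext1 i
    have a1 : (w i).1.1 = (w' i).1.1 := congrFun he.1 i
    have a2 : pe hm w (i % h) = pe hm w i := per_mod hw i 0
    have a3 : pe hm w' (i % h) = pe hm w' i := per_mod hw' i 0
    have a4 : (i : ℕ) % h < m := lt_of_lt_of_le (Nat.mod_lt _ hh.1) hh.2
    have a5 : pe hm w (i % h) = pe hm w' (i % h) := by
      have b1 := congrFun he.2 ⟨i % h, a4⟩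
      have b2 := congrFun he.1 ⟨i % h, by omega⟩
      have b3 : (i : ℕ) % h % (2 * m) = i % h := Nat.mod_eq_of_lt (by omega)
      simp only [pe, ex, b3]
      simp only [Fin.castLE_mk] at b1
      rw [b1, b2]
    rw [a2, a3] at a5
    simp only [pe, ex, Nat.mod_eq_of_lt i.2, Fin.eta, a1] at a5
    refine Subtype.ext (Prod.ext a1 (Fin.ext ?_))
    omega
  · simp only [card_univ, Fintype.card_prod, Fintype.card_pi, Fintype.card_fin, prod_const]
    rw [← pow_add]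
    exact le_of_eq (by congr 1; ring)

variable [Fintype K] [Fintype V] [Fintype (V ≃ₗ[K] V)]

open Classical in
/-- The nonnegative functional used in the Markov inequality. -/
noncomputable def Zf (L k : ℕ) (A B : V ≃ₗ[K] V) : ℝ :=
  (LinearMap.trace ℂ _ ((Xt (NZ V) L A * Xt (NZ V) L B) ^ (2 * k))).re +
    finrank ℂ (EuclideanSpace ℂ (NZ V)) * ((L : ℝ)⁻¹) ^ k

open Classical in
theorem sum_Zf_le [Nontrivial V] {A B : V ≃ₗ[K] V} {L k κ : ℕ} (hL : 0 < L) (hk : 0 < k)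
    (hA : #{v | v ∈ BadZ (4 * L) A} ≤ κ) (hB : #{v | v ∈ BadZ (4 * L) B} ≤ κ)
    (hl : 2 * Fintype.card K ^ (4 * k) ≤ Fintype.card V) :
    ∑ g : V ≃ₗ[K] V, Zf L k (g⁻¹ * A * g) B ≤ Fintype.card (V ≃ₗ[K] V) *
      (2 * (Fintype.card K : ℝ) ^ (4 * k) / Fintype.card V
        + (4 * k) ^ 2 * (2 * κ ^ 2 * (Fintype.card K : ℝ) ^ (8 * k) / Fintype.card V)
        + 2 * k * ((L : ℝ)⁻¹) ^ (2 * k) * Fintype.card V + Fintype.card V * ((L : ℝ)⁻¹) ^ k) := by
  have : Nonempty (NZ V) := by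
    obtain ⟨v, hv⟩ := exists_ne (0 : V)
    exact ⟨⟨v, hv⟩⟩
  obtain ⟨m, hm⟩ : ∃ m, 2 * k = m + 1 := ⟨2 * k - 1, by omega⟩
  have hm0 : 0 < 2 * (2 * k) := by omega
  have hL' : (0 : ℝ) < L := by exact_mod_cast hL
  have hQ : (0 : ℝ) < Fintype.card V := by exact_mod_cast Fintype.card_pos
  set c : ℝ := ((1 - (L : ℝ)⁻¹) ^ 2) ^ (2 * k) with hc
  have h1 : ∀ A' : V ≃ₗ[K] V, Zf L k A' B ≤ (((L : ℝ) ^ 2)⁻¹) ^ (2 * (2 * k)) *
      (∑ w : Fin (2 * (2 * k)) → Let L,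
        (#{v : V | v ≠ 0 ∧ wd (Ms A' B) (pe hm0 w) (2 * (2 * k)) v = v} : ℝ)) - c +
      Fintype.card V * ((L : ℝ)⁻¹) ^ k := by
    intro A'
    rw [← trace_eq L A' B hm0, Zf, hc, hm, Xt_pow hL, map_sub, map_smul, trace_J, Complex.sub_re]
    refine add_le_add (le_of_eq ?_) ?_
    · congr 1
      rw [smul_eq_mul, mul_one, ← Complex.ofReal_natCast, ← Complex.ofReal_inv,
        ← Complex.ofReal_one, ← Complex.ofReal_sub, ← Complex.ofReal_pow, ← Complex.ofReal_pow,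
        Complex.ofReal_re]
    · rw [finrank_euclideanSpace]
      gcongr
      exact Fintype.card_subtype_le _
  set η : ℝ := 2 * (Fintype.card K : ℝ) ^ (4 * k) / Fintype.card V
        + (4 * k) ^ 2 * (2 * κ ^ 2 * (Fintype.card K : ℝ) ^ (8 * k) / Fintype.card V) with hη
  have hη0 : 0 ≤ η := by positivity
  have h2 : ∀ w : Fin (2 * (2 * k)) → Let L, ∑ g : V ≃ₗ[K] V,
      (#{v : V | v ≠ 0 ∧ wd (Ms (g⁻¹ * A * g) B) (pe hm0 w) (2 * (2 * k)) v = v} : ℝ) ≤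
      Fintype.card (V ≃ₗ[K] V) * (1 + η + if ∃ t, 0 < t ∧ t < 2 * (2 * k) ∧
        ∀ s, pe hm0 w (s + t) = pe hm0 w s then (Fintype.card V : ℝ) else 0) := by
    intro w
    have he : ∀ j, pe hm0 w j ≠ 0 ∧ 2 * |pe hm0 w j| ≤ (4 * L : ℕ) := by
      intro j
      refine ⟨ex_ne _, ?_⟩
      have := abs_ex_le (w ⟨j % (2 * (2 * k)), Nat.mod_lt _ hm0⟩)
      unfold pe
      push_cast
      omega
    have := fix_le he hA hB (by omega) (pe_periodic hm0 w) hm0
      (by rwa [show 2 * (2 * k) = 4 * k by ring])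
    refine this.trans (le_of_eq ?_)
    rw [hη, show 2 * (2 * (2 * k)) = 8 * k by ring, show 4 * k = 2 * (2 * k) by ring]
    push_cast
    ring_nf
  have h3 : ∑ w : Fin (2 * (2 * k)) → Let L, (1 + η + if ∃ t, 0 < t ∧ t < 2 * (2 * k) ∧
        ∀ s, pe hm0 w (s + t) = pe hm0 w s then (Fintype.card V : ℝ) else 0) ≤
      ((L : ℝ) ^ 2 - L) ^ (2 * (2 * k)) * (1 + η) +
        (2 * k * (L : ℝ) ^ (3 * (2 * k))) * Fintype.card V := by
    rw [sum_add_distrib, sum_const, card_univ, nsmul_eq_mul, ← sum_filter, sum_const, nsmul_eq_mul]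
    refine add_le_add (le_of_eq ?_) ?_
    · have := card_let L
      have e : (Fintype.card (Let L) : ℝ) = L ^ 2 - L := by exact_mod_cast this
      simp [← e]
    · gcongr
      exact_mod_cast card_periodic (L := L) hm0
  have h4 : (((L : ℝ) ^ 2)⁻¹) ^ (2 * (2 * k)) * ((L : ℝ) ^ 2 - L) ^ (2 * (2 * k)) = c := by
    rw [← mul_pow, hc, ← pow_mul]
    congr 1
    field_simp
  have h5 : (((L : ℝ) ^ 2)⁻¹) ^ (2 * (2 * k)) * (L : ℝ) ^ (3 * (2 * k)) = ((L : ℝ)⁻¹) ^ (2 * k) := by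
    rw [pow_mul, pow_mul _ 3, ← mul_pow]
    congr 1
    field_simp
  have hc1 : c ≤ 1 := by
    have : (L : ℝ)⁻¹ ≤ 1 := inv_le_one_of_one_le₀ (by exact_mod_cast hL)
    have h0 : 0 ≤ (L : ℝ)⁻¹ := by positivity
    exact pow_le_one₀ (by positivity) (pow_le_one₀ (by linarith) (by linarith))
  calc _ ≤ ∑ g : V ≃ₗ[K] V, ((((L : ℝ) ^ 2)⁻¹) ^ (2 * (2 * k)) *
      (∑ w : Fin (2 * (2 * k)) → Let L,
        (#{v : V | v ≠ 0 ∧ wd (Ms (g⁻¹ * A * g) B) (pe hm0 w) (2 * (2 * k)) v = v} : ℝ)) - c +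
      Fintype.card V * ((L : ℝ)⁻¹) ^ k) := sum_le_sum fun g _ => h1 _
    _ ≤ (((L : ℝ) ^ 2)⁻¹) ^ (2 * (2 * k)) * (Fintype.card (V ≃ₗ[K] V) *
        (((L : ℝ) ^ 2 - L) ^ (2 * (2 * k)) * (1 + η) +
          (2 * k * (L : ℝ) ^ (3 * (2 * k))) * Fintype.card V)) - Fintype.card (V ≃ₗ[K] V) * c +
        Fintype.card (V ≃ₗ[K] V) * (Fintype.card V * ((L : ℝ)⁻¹) ^ k) := by
      rw [sum_add_distrib, sum_sub_distrib, ← mul_sum, sum_comm]
      simp only [sum_const, card_univ, nsmul_eq_mul]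
      gcongr
      refine (sum_le_sum fun w _ => h2 w).trans ?_
      rw [← mul_sum]
      gcongr
    _ = Fintype.card (V ≃ₗ[K] V) * (c * η + 2 * k * ((L : ℝ)⁻¹) ^ (2 * k) * Fintype.card V +
        Fintype.card V * ((L : ℝ)⁻¹) ^ k) := by
      rw [← h5, ← h4]
      ring
    _ ≤ _ := by
      gcongr
      exact mul_le_of_le_one_left hη0 hc1

end Pool.Agent.P.MP_c21a16_pr
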