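import Mathlib
import Pool.Agent.P.MP_c21a16_pr.Trace

/-!
Markov inequality: the proportion of pairs without spectral gap.
-/

namespace Pool.Agent.P.MP_c21a16_pr

open Module Finset

lemma norm_U_sq_sub {G Ω : Type*} [Group G] [MulAction G Ω] [Fintype Ω] (g : G)
    (φ : EuclideanSpace ℂ Ω) (hφ : ‖φ‖ = 1) (δ : ℝ) (hδ : 0 ≤ δ)
    (h : 1 - δ ^ 2 / 2 ≤ |(inner ℂ (U Ω g φ) φ).re|) : ‖U Ω (g ^ 2) φ - φ‖ ≤ 2 * δ := by
  have key : ∀ s : ℝ, s * s = 1 → 1 - δ ^ 2 / 2 ≤ s * (inner ℂ (U Ω g φ) φ).re →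
      ‖U Ω (g ^ 2) φ - φ‖ ≤ 2 * δ := by
    intro s hs h1
    have habs : |s| = 1 := by
      rcases mul_self_eq_one_iff.1 hs with h | h <;> simp [h]
    have h2 : ‖U Ω g φ - (s : ℂ) • φ‖ ^ 2 ≤ δ ^ 2 := by
      rw [norm_sub_sq (𝕜 := ℂ), inner_smul_right, norm_U, norm_smul, hφ]
      simp only [RCLike.re_to_complex, Complex.re_ofReal_mul, Complex.norm_real, Real.norm_eq_abs,
        habs]
      linarith
    have h3 : ‖U Ω g φ - (s : ℂ) • φ‖ ≤ δ := (pow_le_pow_iff_left₀ (norm_nonneg _) hδ two_ne_zero).1 h2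
    have h4 : U Ω (g ^ 2) φ - φ =
        U Ω g (U Ω g φ - (s : ℂ) • φ) + (s : ℂ) • (U Ω g φ - (s : ℂ) • φ) := by
      have : (s : ℂ) * s = 1 := by exact_mod_cast hs
      rw [sq, map_mul, End.mul_apply, map_sub, map_smul, smul_sub, smul_smul, this, one_smul]
      abel
    rw [h4]
    refine (norm_add_le _ _).trans ?_
    rw [norm_U, norm_smul, Complex.norm_real, Real.norm_eq_abs, habs]
    linarith
  rcases le_abs.1 h with h | h
  · exact key 1 (by norm_num) (by linarith)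
  · exact key (-1) (by norm_num) (by linarith)

variable {K V : Type*} [Field K] [AddCommGroup V] [Module K V] [Fintype K] [Fintype V]
  [Fintype (V ≃ₗ[K] V)]

open Classical in
/-- The pair `(A, B)` has a nontrivial eigenvalue of modulus larger than `c`. -/
def NoGap (c : ℝ) (A B : V ≃ₗ[K] V) : Prop :=
  ∃ (μ : ℝ) (f : NZ V → ℝ), f ≠ 0 ∧ ∑ v, f v = 0 ∧
    (∀ v, f (A • v) + f (A⁻¹ • v) + f (B • v) + f (B⁻¹ • v) = μ * f v) ∧ c < |μ|

omit [Fintype K] [Fintype (V ≃ₗ[K] V)] in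
lemma Zf_nonneg [Nontrivial V] {L : ℕ} (hL : 20 ≤ L) (k : ℕ) (A B : V ≃ₗ[K] V) :
    0 ≤ Zf L k A B := by
  classical
  have : Nonempty (NZ V) := by
    obtain ⟨v, hv⟩ := exists_ne (0 : V)
    exact ⟨⟨v, hv⟩⟩
  have hL' : (20 : ℝ) ≤ L := by exact_mod_cast hL
  exact trace_ge (hyp_Xt (by omega) A) (hyp_Xt (by omega) B) (by positivity)
    (by rw [one_div]; exact inv_anti₀ (by norm_num) hL') k

omit [Fintype K] [Fintype (V ≃ₗ[K] V)] in
lemma Zf_of_noGap [Nontrivial V] {L : ℕ} (hL : 20 ≤ L) (k : ℕ) {A B : V ≃ₗ[K] V}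
    (h : NoGap (4 - (1 / (40 * L)) ^ 2) A B) : (1 / 16) ^ k ≤ Zf L k A B := by
  classical
  have : Nonempty (NZ V) := by
    obtain ⟨v, hv⟩ := exists_ne (0 : V)
    exact ⟨⟨v, hv⟩⟩
  have hL' : (20 : ℝ) ≤ L := by exact_mod_cast hL
  have hθ : (L : ℝ)⁻¹ ≤ 1 / 20 := by rw [one_div]; exact inv_anti₀ (by norm_num) hL'
  obtain ⟨μ, f, hf0, hsum, heig, hμ⟩ := h
  let φ₀ : EuclideanSpace ℂ (NZ V) := WithLp.toLp 2 fun v => (f v : ℂ)
  have hφ₀ : φ₀ ≠ 0 := by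
    intro h0
    apply hf0
    ext v
    have := congrArg (fun ψ : EuclideanSpace ℂ (NZ V) => ψ v) h0
    simpa [φ₀] using this
  have hn : 0 < ‖φ₀‖ := norm_pos_iff.2 hφ₀
  let φ : EuclideanSpace ℂ (NZ V) := ((‖φ₀‖⁻¹ : ℝ) : ℂ) • φ₀
  have hφ : ‖φ‖ = 1 := by simp [φ, norm_smul, hn.ne']
  have hs : ∑ v, φ v = 0 := by
    simp only [φ, φ₀, PiLp.smul_apply, smul_eq_mul, ← mul_sum, ← Complex.ofReal_sum]
    have : ∑ v, f v = 0 := hsum
    simp [this]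
  have he : U (NZ V) A⁻¹ φ + U (NZ V) A φ + U (NZ V) B⁻¹ φ + U (NZ V) B φ = (μ : ℂ) • φ := by
    ext v
    have := congrArg (fun x : ℝ => (x : ℂ)) (heig v)
    simp only [φ, φ₀, PiLp.add_apply, U_apply, inv_inv, PiLp.smul_apply, smul_eq_mul]
    push_cast at this ⊢
    linear_combination (‖φ₀‖ : ℂ)⁻¹ * this
  have hinv : ∀ C : V ≃ₗ[K] V,
      (inner ℂ (U (NZ V) C⁻¹ φ) φ).re = (inner ℂ (U (NZ V) C φ) φ).re := by
    intro C
    rw [inner_U, inv_inv, ← inner_conj_symm, Complex.conj_re]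
  have hb : ∀ C : V ≃ₗ[K] V, |(inner ℂ (U (NZ V) C φ) φ).re| ≤ 1 := by
    intro C
    have := abs_re_inner_le (U (NZ V) C φ) φ
    rwa [norm_U, hφ, mul_one] at this
  have hab : 2 * (inner ℂ (U (NZ V) A φ) φ).re + 2 * (inner ℂ (U (NZ V) B φ) φ).re = μ := by
    have := congrArg (fun ψ => (inner ℂ ψ φ).re) he
    simp only [inner_add_left, Complex.add_re, hinv, inner_smul_left, Complex.conj_ofReal,
      Complex.re_ofReal_mul, re_inner_self, hφ] at this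
    linarith
  set δ : ℝ := 1 / (40 * L) with hδ
  have hδ0 : 0 ≤ δ := by positivity
  have htri : |μ| ≤ 2 * |(inner ℂ (U (NZ V) A φ) φ).re| + 2 * |(inner ℂ (U (NZ V) B φ) φ).re| := by
    rw [← hab]
    refine (abs_add_le _ _).trans ?_
    simp [abs_mul]
  have hclose : ∀ C : V ≃ₗ[K] V, 1 - δ ^ 2 / 2 ≤ |(inner ℂ (U (NZ V) C φ) φ).re| →
      ‖Xt (NZ V) L C φ - φ‖ ≤ 1 / 10 := by
    intro C hC
    have h1 := norm_U_sq_sub C φ hφ δ hδ0 hC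
    have h2 := norm_Xt_sub (L := L) (by omega) C φ hs
    have h3 : (L : ℝ) * ‖U (NZ V) (C ^ 2) φ - φ‖ ≤ L * (2 * δ) := by gcongr
    have h4 : (L : ℝ) * (2 * δ) = 1 / 20 := by rw [hδ]; field_simp; norm_num
    rw [hφ] at h2
    linarith
  exact trace_ge_of_approx (hyp_Xt (by omega) A) (hyp_Xt (by omega) B) (by positivity) hθ k φ hφ
    (hclose A (by linarith [hb B])) (hclose B (by linarith [hb A]))

open Classical in
lemma card_not_nice (R κ : ℕ) (hκ : 0 < κ) (hD : 2 * Fintype.card K ^ (2 * R) ≤ Fintype.card V) :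
    (#{A : V ≃ₗ[K] V | ¬ #{v | v ∈ BadZ R A} ≤ κ} : ℝ) ≤ Fintype.card (V ≃ₗ[K] V) *
      ((1 + 2 * (2 * R : ℕ) * (Fintype.card K : ℝ) ^ (2 * R)) / κ) := by
  have hκ' : (0 : ℝ) < κ := by exact_mod_cast hκ
  rw [← mul_div_assoc, le_div_iff₀ hκ']
  refine le_trans ?_ (sum_card_bad (2 * R) hD)
  rw [← nsmul_eq_mul, ← sum_const]
  refine le_trans (sum_le_sum fun A hA => ?_)
    (sum_le_sum_of_subset_of_nonneg (filter_subset _ _) fun _ _ _ => Nat.cast_nonneg _)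
  simp only [mem_filter, mem_univ, true_and, not_le] at hA
  exact_mod_cast hA.le.trans (card_badZ R A)

open Classical in
theorem card_noGap_le [Nontrivial V] {L k κ : ℕ} (hL : 20 ≤ L) (hk : 0 < k) (hκ : 0 < κ)
    (hl : 2 * Fintype.card K ^ (4 * k) ≤ Fintype.card V)
    (hD : 2 * Fintype.card K ^ (2 * (4 * L)) ≤ Fintype.card V) :
    (#{z : (V ≃ₗ[K] V) × (V ≃ₗ[K] V) | NoGap (4 - (1 / (40 * L)) ^ 2) z.1 z.2} : ℝ) ≤
      (Fintype.card (V ≃ₗ[K] V) : ℝ) ^ 2 *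
      (16 ^ k * (2 * (Fintype.card K : ℝ) ^ (4 * k) / Fintype.card V
        + (4 * k) ^ 2 * (2 * κ ^ 2 * (Fintype.card K : ℝ) ^ (8 * k) / Fintype.card V)
        + 2 * k * ((L : ℝ)⁻¹) ^ (2 * k) * Fintype.card V + Fintype.card V * ((L : ℝ)⁻¹) ^ k)
        + 2 * ((1 + 2 * (2 * (4 * L) : ℕ) * (Fintype.card K : ℝ) ^ (2 * (4 * L))) / κ)) := by
  set η : ℝ := 2 * (Fintype.card K : ℝ) ^ (4 * k) / Fintype.card V
        + (4 * k) ^ 2 * (2 * κ ^ 2 * (Fintype.card K : ℝ) ^ (8 * k) / Fintype.card V)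
        + 2 * k * ((L : ℝ)⁻¹) ^ (2 * k) * Fintype.card V + Fintype.card V * ((L : ℝ)⁻¹) ^ k
  have hη : 0 ≤ η := by positivity
  set C : ℝ := (1 + 2 * (2 * (4 * L) : ℕ) * (Fintype.card K : ℝ) ^ (2 * (4 * L))) / κ
  set c : ℝ := 4 - (1 / (40 * L)) ^ 2
  set n : ℝ := (Fintype.card (V ≃ₗ[K] V) : ℝ) with hn
  have hn0 : 0 < n := by rw [hn]; exact_mod_cast Fintype.card_pos
  let bad : (V ≃ₗ[K] V) → ℝ := fun A => if ¬ #{v | v ∈ BadZ (4 * L) A} ≤ κ then 1 else 0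
  have hbad0 : ∀ A, 0 ≤ bad A := fun A => by simp only [bad]; split_ifs <;> norm_num
  have hbad : ∑ A, bad A ≤ n * C := by
    have := card_not_nice (K := K) (V := V) (4 * L) κ hκ hD
    rw [card_filter] at this
    push_cast at this
    simpa [bad, C] using this
  let ind : (V ≃ₗ[K] V) → (V ≃ₗ[K] V) → ℝ := fun A B => if NoGap c A B then 1 else 0
  have h1 : ∀ A B : V ≃ₗ[K] V, ∑ g : V ≃ₗ[K] V, ind (g⁻¹ * A * g) B ≤
      n * (16 ^ k * η + bad A + bad B) := by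
    intro A B
    by_cases hAB : #{v | v ∈ BadZ (4 * L) A} ≤ κ ∧ #{v | v ∈ BadZ (4 * L) B} ≤ κ
    · have h2 := sum_Zf_le (by omega) hk hAB.1 hAB.2 hl
      calc _ ≤ ∑ g : V ≃ₗ[K] V, 16 ^ k * Zf L k (g⁻¹ * A * g) B := by
            refine sum_le_sum fun g _ => ?_
            simp only [ind]
            split_ifs with h3
            · have := Zf_of_noGap hL k h3
              calc (1 : ℝ) = 16 ^ k * (1 / 16) ^ k := by rw [← mul_pow]; norm_num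
                _ ≤ _ := by gcongr
            · have := Zf_nonneg hL k (g⁻¹ * A * g) B
              positivity
        _ ≤ 16 ^ k * (n * η) := by rw [← mul_sum]; gcongr
        _ ≤ _ := by nlinarith [mul_nonneg hn0.le (hbad0 A), mul_nonneg hn0.le (hbad0 B)]
    · have h3 : 1 ≤ bad A + bad B := by
        simp only [bad]
        split_ifs <;> simp_all
      calc _ ≤ ∑ _g : V ≃ₗ[K] V, (1 : ℝ) := by
            refine sum_le_sum fun g _ => ?_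
            simp only [ind]
            split_ifs <;> norm_num
        _ = n * 1 := by simp [hn]
        _ ≤ _ := by
          gcongr
          have : 0 ≤ 16 ^ k * η := by positivity
          linarith
  have h2 : n * #{z : (V ≃ₗ[K] V) × (V ≃ₗ[K] V) | NoGap c z.1 z.2} =
      ∑ A : V ≃ₗ[K] V, ∑ B : V ≃ₗ[K] V, ∑ g : V ≃ₗ[K] V, ind (g⁻¹ * A * g) B := by
    rw [card_filter]
    push_cast
    rw [Fintype.sum_prod_type, hn, ← nsmul_eq_mul, ← card_univ, ← sum_const]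
    simp_rw [sum_comm (s := (univ : Finset (V ≃ₗ[K] V))) (t := (univ : Finset (V ≃ₗ[K] V)))
      (f := fun B g => ind (g⁻¹ * _ * g) B)]
    rw [sum_comm (f := fun A g => ∑ B, ind (g⁻¹ * A * g) B)]
    refine sum_congr rfl fun g _ => ?_
    exact (Fintype.sum_equiv ((Equiv.mulLeft g⁻¹).trans (Equiv.mulRight g)) _ _ fun A => rfl).symm
  have h3 : ∑ A : V ≃ₗ[K] V, ∑ B : V ≃ₗ[K] V, n * (16 ^ k * η + bad A + bad B) =
      n * (n ^ 2 * (16 ^ k * η) + 2 * n * ∑ A, bad A) := by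
    simp only [← mul_sum, sum_add_distrib, sum_const, card_univ, nsmul_eq_mul, ← hn]
    ring
  refine le_of_mul_le_mul_left ?_ hn0
  rw [h2]
  refine (sum_le_sum fun A _ => sum_le_sum fun B _ => h1 A B).trans ?_
  rw [h3]
  gcongr
  nlinarith

lemma numeric (q k N : ℕ) (hq : 2 ≤ q) (hk : 0 < k) (h1 : 20 * k ≤ N) (h2 : N ≤ 20 * k + 19)
    (C : ℝ) (hC : 0 ≤ C) :
    16 ^ k * (2 * (q : ℝ) ^ (4 * k) / (q : ℝ) ^ N
        + (4 * k) ^ 2 * (2 * ((q : ℝ) ^ k) ^ 2 * (q : ℝ) ^ (8 * k) / (q : ℝ) ^ N)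
        + 2 * k * ((32 * (q : ℝ) ^ 20)⁻¹) ^ (2 * k) * (q : ℝ) ^ N
        + (q : ℝ) ^ N * ((32 * (q : ℝ) ^ 20)⁻¹) ^ k) + 2 * (C / (q : ℝ) ^ k)
      ≤ (34 + 3 * (q : ℝ) ^ 19 + 2 * C) * (k ^ 2 * (1 / 2) ^ k) := by
  have hq' : (2 : ℝ) ≤ q := by exact_mod_cast hq
  have hq1 : (1 : ℝ) ≤ q := by linarith
  have hk' : (1 : ℝ) ≤ k := by exact_mod_cast hk
  have hk2 : (1 : ℝ) ≤ k ^ 2 := one_le_pow₀ hk'
  have hkk : (k : ℝ) ≤ k ^ 2 := by nlinarith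
  have lo : (q : ℝ) ^ (20 * k) ≤ q ^ N := pow_le_pow_right₀ hq1 h1
  have hi : (q : ℝ) ^ N ≤ q ^ (20 * k + 19) := pow_le_pow_right₀ hq1 h2
  set x : ℝ := (1 / 2) ^ k with hx
  have hx0 : 0 < x := by positivity
  have p5 : (32 : ℝ) ≤ q ^ 5 := by
    calc (32 : ℝ) = 2 ^ 5 := by norm_num
      _ ≤ _ := by gcongr
  have t0 : 16 ^ k * ((q : ℝ) ^ (10 * k) / (q : ℝ) ^ N) ≤ x := by
    calc _ ≤ 16 ^ k * ((q : ℝ) ^ (10 * k) / (q : ℝ) ^ (20 * k)) := by gcongr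
      _ = (16 * (q ^ 10 / q ^ 20)) ^ k := by rw [mul_pow, div_pow, ← pow_mul, ← pow_mul]
      _ ≤ _ := by
        rw [hx]
        gcongr
        rw [← mul_div_assoc, div_le_div_iff₀ (by positivity) (by norm_num)]
        have : (q : ℝ) ^ 20 = q ^ 10 * (q ^ 5 * q ^ 5) := by ring
        rw [this]
        have : 32 ≤ (q : ℝ) ^ 5 * q ^ 5 := by nlinarith
        nlinarith [pow_pos (by linarith : (0 : ℝ) < q) 10]
  have t1 : 16 ^ k * (2 * (q : ℝ) ^ (4 * k) / (q : ℝ) ^ N) ≤ 2 * x := by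
    calc _ = 2 * (16 ^ k * ((q : ℝ) ^ (4 * k) / (q : ℝ) ^ N)) := by ring
      _ ≤ 2 * (16 ^ k * ((q : ℝ) ^ (10 * k) / (q : ℝ) ^ N)) := by gcongr; omega
      _ ≤ _ := by gcongr
  have t2 : 16 ^ k * ((4 * k) ^ 2 * (2 * ((q : ℝ) ^ k) ^ 2 * (q : ℝ) ^ (8 * k) / (q : ℝ) ^ N))
      ≤ 32 * k ^ 2 * x := by
    calc _ = 32 * k ^ 2 * (16 ^ k * ((q : ℝ) ^ (10 * k) / (q : ℝ) ^ N)) := by ring
      _ ≤ _ := by gcongr
  have t4 : 16 ^ k * ((q : ℝ) ^ N * ((32 * (q : ℝ) ^ 20)⁻¹) ^ k) ≤ q ^ 19 * x := by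
    calc _ ≤ 16 ^ k * ((q : ℝ) ^ (20 * k + 19) * ((32 * (q : ℝ) ^ 20)⁻¹) ^ k) := by gcongr
      _ = q ^ 19 * (16 * q ^ 20 * (32 * (q : ℝ) ^ 20)⁻¹) ^ k := by
        rw [mul_pow, mul_pow, pow_add, pow_mul]; ring
      _ = _ := by
        rw [hx]
        congr 2
        field_simp
        norm_num
  have t3 : 16 ^ k * (2 * k * ((32 * (q : ℝ) ^ 20)⁻¹) ^ (2 * k) * (q : ℝ) ^ N)
      ≤ 2 * k * (q ^ 19 * x) := by
    have e : ((32 * (q : ℝ) ^ 20)⁻¹) ^ (2 * k) ≤ ((32 * (q : ℝ) ^ 20)⁻¹) ^ k := by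
      apply pow_le_pow_of_le_one (by positivity) _ (by omega)
      apply inv_le_one_of_one_le₀
      nlinarith [one_le_pow₀ (n := 20) hq1]
    calc _ ≤ 16 ^ k * (2 * k * ((32 * (q : ℝ) ^ 20)⁻¹) ^ k * (q : ℝ) ^ N) := by gcongr
      _ = 2 * k * (16 ^ k * ((q : ℝ) ^ N * ((32 * (q : ℝ) ^ 20)⁻¹) ^ k)) := by ring
      _ ≤ _ := by gcongr
  have t5 : C / (q : ℝ) ^ k ≤ C * x := by
    rw [div_eq_mul_inv, hx, one_div, inv_pow]
    gcongr
  have hq19 : 0 < (q : ℝ) ^ 19 := by positivity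
  have u1 : x ≤ k ^ 2 * x := le_mul_of_one_le_left hx0.le hk2
  have u2 : k * x ≤ k ^ 2 * x := by gcongr
  nlinarith [mul_le_mul_of_nonneg_left u1 hq19.le, mul_le_mul_of_nonneg_left u2 hq19.le,
    mul_le_mul_of_nonneg_left u1 hC]

end Pool.Agent.P.MP_c21a16_pr
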