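import Mathlib
import Pool.Agent.P.MP_c21a16_pr.Defs
import Pool.Agent.P.MP_c21a16_pr.Main

namespace Pool.Agent.P.MP_c21a16_pr

open Filter Topology Finset

/-- Matrices as linear automorphisms. -/
noncomputable def toEq (K : Type*) [Field K] (N : ℕ) :
    GL (Fin N) K ≃* ((Fin N → K) ≃ₗ[K] (Fin N → K)) :=
  Matrix.GeneralLinearGroup.toLin.trans (LinearMap.GeneralLinearGroup.generalLinearEquiv K _)

lemma toEq_smul {K : Type*} [Field K] {N : ℕ} (A : GL (Fin N) K) (v : NZ (Fin N → K)) :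
    toEq K N A • v = act A v := rfl

lemma noGap_of_not {K : Type*} [Field K] [Fintype K] [DecidableEq K] {N : ℕ} {A B : GL (Fin N) K}
    {c : ℝ} (h : ¬ LamLe A B c) : NoGap c (toEq K N A) (toEq K N B) := by
  unfold LamLe at h
  push Not at h
  obtain ⟨μ, f, h1, h2, h3, h4⟩ := h
  refine ⟨μ, f, h1, (Finset.sum_congr (Finset.ext fun _ => by simp) fun _ _ => rfl).trans h2, fun v => ?_, h4⟩
  simpa only [← map_inv, toEq_smul] using h3 v

/-- Uniform spectral gap for the random Schreier graphs of `GL_N(K)` acting on nonzero vectors: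
for every finite field `K` there is `ε > 0` such that the proportion of pairs `(A, B)` in
`GL_N(K) × GL_N(K)` with `λ(G_N(A, B)) ≤ 4 - ε` tends to `1` as `N → ∞`. -/
theorem final (K : Type*) [Field K] [Fintype K] [DecidableEq K] :
    ∃ ε : ℝ, 0 < ε ∧ Tendsto (fun N : ℕ =>
      (Nat.card {p : GL (Fin N) K × GL (Fin N) K // LamLe p.1 p.2 (4 - ε)} : ℝ) /
        Nat.card (GL (Fin N) K × GL (Fin N) K)) atTop (𝓝 1) := by
  classical
  set q := Fintype.card K with hq
  have hq2 : 2 ≤ q := Fintype.one_lt_card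
  set L : ℕ := 32 * q ^ 20 with hL
  have hL20 : 20 ≤ L := by
    have : 1 ≤ q ^ 20 := Nat.one_le_pow _ _ (by omega)
    omega
  have hL' : (0 : ℝ) < L := by exact_mod_cast (by omega : 0 < L)
  refine ⟨(1 / (40 * L)) ^ 2, by positivity, ?_⟩
  set C : ℝ := 1 + 2 * (2 * (4 * L) : ℕ) * (q : ℝ) ^ (2 * (4 * L)) with hC
  have hC0 : 0 ≤ C := by positivity
  have hlim : Tendsto (fun N : ℕ => 1 - (34 + 3 * (q : ℝ) ^ 19 + 2 * C) *
      (((N / 20 : ℕ) : ℝ) ^ 2 * (1 / 2) ^ (N / 20))) atTop (𝓝 1) := by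
    have h1 := tendsto_pow_const_mul_const_pow_of_abs_lt_one 2 (r := (1 / 2 : ℝ))
      (by rw [abs_lt]; constructor <;> norm_num)
    have h2 : Tendsto (fun N : ℕ => N / 20) atTop atTop :=
      Nat.tendsto_div_const_atTop (by norm_num)
    have h3 := ((h1.comp h2).const_mul (34 + 3 * (q : ℝ) ^ 19 + 2 * C)).const_sub 1
    simpa using h3
  refine tendsto_of_tendsto_of_tendsto_of_le_of_le' hlim tendsto_const_nhds ?_ ?_
  · filter_upwards [eventually_ge_atTop (2 * (4 * L) + 20)] with N hN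
    have : Nonempty (Fin N) := ⟨⟨0, by omega⟩⟩
    have : Finite ((Fin N → K) ≃ₗ[K] (Fin N → K)) := Finite.of_equiv _ (toEq K N).toEquiv
    let _ : Fintype ((Fin N → K) ≃ₗ[K] (Fin N → K)) := Fintype.ofFinite _
    have hV : Fintype.card (Fin N → K) = q ^ N := by simp [hq]
    have hpow : ∀ j, j + 1 ≤ N → 2 * q ^ j ≤ q ^ N := fun j hj =>
      le_trans (by rw [pow_succ, mul_comm]; exact Nat.mul_le_mul_left _ hq2)
        (Nat.pow_le_pow_right (by omega) hj)
    have h1 := card_noGap_le (K := K) (V := Fin N → K) (L := L) (k := N / 20) (κ := q ^ (N / 20))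
      hL20 (by omega) (by positivity) (by rw [hV]; exact hpow _ (by omega))
      (by rw [hV]; exact hpow _ (by omega))
    have h2 := numeric q (N / 20) N hq2 (by omega) (by omega) (by omega) C hC0
    have e1 : (L : ℝ) = 32 * (q : ℝ) ^ 20 := by rw [hL]; push_cast; rfl
    rw [hV, ← hq, ← hC, Nat.cast_pow, Nat.cast_pow] at h1
    rw [← e1] at h2
    set n : ℝ := (Fintype.card ((Fin N → K) ≃ₗ[K] (Fin N → K)) : ℝ) with hn
    have hn0 : 0 < n := by rw [hn]; exact_mod_cast Fintype.card_pos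
    have h3 := h1.trans (mul_le_mul_of_nonneg_left h2 (by positivity))
    have hcard : Nat.card (GL (Fin N) K × GL (Fin N) K) =
        Fintype.card ((Fin N → K) ≃ₗ[K] (Fin N → K)) ^ 2 := by
      rw [Nat.card_prod, Nat.card_congr (toEq K N).toEquiv, Nat.card_eq_fintype_card, sq]
    have h4 : Nat.card (GL (Fin N) K × GL (Fin N) K) ≤
        Nat.card {p : GL (Fin N) K × GL (Fin N) K // LamLe p.1 p.2 (4 - (1 / (40 * L)) ^ 2)} +
        #{z : ((Fin N → K) ≃ₗ[K] (Fin N → K)) × ((Fin N → K) ≃ₗ[K] (Fin N → K)) |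
          NoGap (4 - (1 / (40 * L)) ^ 2) z.1 z.2} := by
      rw [Nat.card_eq_fintype_card, Nat.card_eq_fintype_card, Fintype.card_subtype, ← card_univ,
        ← card_filter_add_card_filter_not (s := univ)
          (p := fun p : GL (Fin N) K × GL (Fin N) K => LamLe p.1 p.2 (4 - (1 / (40 * L)) ^ 2))]
      refine Nat.add_le_add_left (card_le_card_of_injOn
        (fun p => (toEq K N p.1, toEq K N p.2)) ?_ ?_) _
      · intro p hp
        simp only [coe_filter, mem_univ, true_and, Set.mem_ofPred_eq] at hp ⊢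
        exact noGap_of_not hp
      · intro p _ p' _ h
        simp only [Prod.mk.injEq, EmbeddingLike.apply_eq_iff_eq] at h
        exact Prod.ext h.1 h.2
    rw [hcard] at h4 ⊢
    have h5 := (Nat.cast_le (α := ℝ)).2 h4
    rw [Nat.cast_add, Nat.cast_pow, ← hn] at h5
    rw [Nat.cast_pow, ← hn, le_div_iff₀ (by positivity)]
    linarith
  · refine Eventually.of_forall fun N => ?_
    apply div_le_one_of_le₀ _ (Nat.cast_nonneg _)
    exact_mod_cast Finite.card_subtype_le _

end Pool.Agent.P.MP_c21a16_pr
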